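import Mathlib
import Pool.Agent.H.MP_2786f0_ag.h70.Trail
import Pool.Agent.H.MP_2786f0_ag.C.Basic

/-!
# No conics
-/

set_option autoImplicit false

namespace Pool.Agent.H.MP_2786f0_ag.h70

section MV

open MvPolynomial

/-- Weights for a linear form with nonnegative values. -/
private theorem conic_nat {k : Type*} [Field k] {N r : ℕ} {w : Fin N → Fin r → ℤ}
    {δ : Fin r → ℤ} {F : MvPolynomial (Fin N) k} (hF : F.IsWeightedHomogeneous w δ)
    (β : Fin r → ℤ) (a : Fin N → ℕ) (ha : ∀ i, β ⬝ᵥ w i = a i) (d : ℕ) (hd : β ⬝ᵥ δ = d) :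
    F.IsWeightedHomogeneous a d := by
  intro m hm
  have h1 := weight_sum hF hm
  have h2 : (∑ i, (m i : ℤ) * (a i : ℤ)) = d := by
    rw [← hd, ← h1, dot_sum]
    exact Finset.sum_congr rfl fun i _ => by rw [ha]
  rw [Finsupp.weight_apply, Finsupp.sum_fintype _ _ (fun _ => by simp)]
  simp only [smul_eq_mul]
  exact_mod_cast h2

/-- The Nullstellensatz for an ideal without zeros. -/
private theorem conic_null {k : Type*} [Field k] [IsAlgClosed k] {N : ℕ}
    (I : Ideal (MvPolynomial (Fin N) k)) (h : ∀ x : Fin N → k, ∃ g ∈ I, eval x g ≠ 0) :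
    I = ⊤ := by
  have h1 : (1 : MvPolynomial (Fin N) k) ∈ I.radical := by
    rw [← MvPolynomial.vanishingIdeal_zeroLocus_eq_radical (K := k)]
    rw [MvPolynomial.mem_vanishingIdeal_iff]
    intro y hy
    rw [MvPolynomial.mem_zeroLocus_iff] at hy
    obtain ⟨g, hg, hgy⟩ := h y
    exact absurd (hy g hg) hgy
  obtain ⟨n, hn⟩ := h1
  rw [one_pow] at hn
  exact (Ideal.eq_top_iff_one I).2 hn

/-- The curve `λ ↦ (λ ^ (a i) * x i)`. -/
private noncomputable def conicEv {k : Type*} [Field k] {N : ℕ} (a : Fin N → ℕ)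
    (x₀ : Fin N → k) : MvPolynomial (Fin N) k →ₐ[k] Polynomial k :=
  aeval (fun i => (Polynomial.X : Polynomial k) ^ a i * Polynomial.C (x₀ i))

private theorem conicEv_eq {k : Type*} [Field k] {N : ℕ} (a : Fin N → ℕ) (x₀ : Fin N → k)
    (G : MvPolynomial (Fin N) k) (n : ℕ) (hG : G.IsWeightedHomogeneous a n) :
    conicEv a x₀ G = Polynomial.X ^ n * Polynomial.C (eval x₀ G) := by
  unfold conicEv
  rw [aeval_scale a n G hG]
  congr 1
  rw [aeval_def, eval₂_eq', eval_eq']
  simp [map_sum, map_mul, map_prod, map_pow]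

/-- The contradiction from `F = l₁ l₂ + A l₃²`. -/
private theorem conic_core {k : Type*} [Field k] [IsAlgClosed k] {N c : ℕ}
    {F : Fin c → MvPolynomial (Fin N) k} {R : Type*} [CommRing R] [IsDomain R]
    [UniqueFactorizationMonoid R] (q : MvPolynomial (Fin N) k →+* R)
    (hqs : Function.Surjective q) (I : Ideal (MvPolynomial (Fin N) k))
    (hI : I = Ideal.span (Set.range F)) (hker : ∀ g, q g = 0 ↔ g ∈ I)
    (a : Fin N → ℕ) (e : Fin 3 → Fin N) (j₀ : Fin c)
    (hcod : ∀ P : MvPolynomial (Fin N) k,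
      (∀ x : Fin N → k, (∀ j, eval x (F j) = 0) → (∃ t, x (e t) ≠ 0) → eval x P ≠ 0) →
      ∀ x : Fin N → k, (∀ j, eval x (F j) = 0) → eval x P ≠ 0)
    (l₁ l₂ l₃ : MvPolynomial (Fin N) k) (A : k) (hA : A ≠ 0)
    (hFj : F j₀ = l₁ * l₂ + C A * l₃ ^ 2)
    (hz : ∀ t, X (e t) ∈ Ideal.span {l₁, l₂, l₃}) (hl₁ : l₁.IsWeightedHomogeneous a 1)
    (x₀ : Fin N → k) (hl₁x : eval x₀ l₁ ≠ 0)
    (E : R →+* Polynomial k) (hE : ∀ g, E (q g) = conicEv a x₀ g) : False := by
  classical
  have hE1 : E (q l₁) = Polynomial.X * Polynomial.C (eval x₀ l₁) := by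
    rw [hE, conicEv_eq _ _ _ _ hl₁, pow_one]
  have hq1 : q l₁ ≠ 0 := by
    intro h
    rw [h, map_zero] at hE1
    have h2 := congrArg (fun g => Polynomial.coeff g 1) hE1
    simp only [Polynomial.coeff_zero, Polynomial.coeff_X_mul, Polynomial.coeff_C_zero] at h2
    exact hl₁x h2.symm
  have hrel : q l₁ * q l₂ = q (C (-A)) * q l₃ ^ 2 := by
    have h1 : q (F j₀) = 0 := by
      rw [hker, hI]
      exact Ideal.subset_span ⟨j₀, rfl⟩
    rw [hFj, map_add, map_mul, map_mul, map_pow] at h1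
    rw [map_neg, map_neg]
    linear_combination h1
  have hAu : q (C (-A)) * q (C (-A)⁻¹) = 1 := by
    rw [← map_mul, ← C_mul, mul_inv_cancel₀ (neg_ne_zero.2 hA), C_1, map_one]
  let _ : GCDMonoid R := UniqueFactorizationMonoid.toGCDMonoid _
  by_cases hg : IsUnit (gcd (q l₁) (q (C (-A)⁻¹) * q l₂))
  · have h1 : q l₁ * (q (C (-A)⁻¹) * q l₂) = q l₃ ^ 2 := by
      linear_combination q (C (-A)⁻¹) * hrel + q l₃ ^ 2 * hAu
    obtain ⟨g, u, hu⟩ := exists_associated_pow_of_mul_eq_pow hg h1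
    have h3 := congrArg E hu
    rw [map_mul, map_pow, hE1] at h3
    have h4 : IsUnit (E (u : R)) := (u.isUnit).map E
    have h5 := congrArg Polynomial.natDegree h3
    have h6 : E g ≠ 0 := by
      intro h7
      rw [h7, zero_pow two_ne_zero, zero_mul] at h3
      have h2 := congrArg (fun g => Polynomial.coeff g 1) h3
      simp only [Polynomial.coeff_zero, Polynomial.coeff_X_mul, Polynomial.coeff_C_zero] at h2
      exact hl₁x h2.symm
    rw [Polynomial.natDegree_mul (pow_ne_zero 2 h6) h4.ne_zero, Polynomial.natDegree_pow,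
      Polynomial.natDegree_eq_zero_of_isUnit h4,
      Polynomial.natDegree_mul Polynomial.X_ne_zero (by simpa using hl₁x),
      Polynomial.natDegree_X, Polynomial.natDegree_C] at h5
    omega
  · have hg0 : gcd (q l₁) (q (C (-A)⁻¹) * q l₂) ≠ 0 := by
      rw [Ne, gcd_eq_zero_iff]
      exact fun h => hq1 h.1
    obtain ⟨π, hπ, hπg⟩ := WfDvdMonoid.exists_irreducible_factor hg hg0
    have hπp : Prime π := UniqueFactorizationMonoid.irreducible_iff_prime.1 hπ
    have hπ1 : π ∣ q l₁ := hπg.trans (gcd_dvd_left _ _)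
    have hπ2 : π ∣ q l₂ := by
      have h1 : π ∣ q (C (-A)) * (q (C (-A)⁻¹) * q l₂) :=
        (hπg.trans (gcd_dvd_right _ _)).mul_left _
      rwa [← mul_assoc, hAu, one_mul] at h1
    have hπ3 : π ∣ q l₃ := by
      have h1 : π ∣ q (C (-A)⁻¹) * (q (C (-A)) * q l₃ ^ 2) := by
        rw [← hrel]
        exact (hπ1.mul_right _).mul_left _
      rw [← mul_assoc, mul_comm (q (C (-A)⁻¹)), hAu, one_mul] at h1
      exact hπp.dvd_of_dvd_pow h1
    obtain ⟨P, hP⟩ := hqs π
    have hzt : ∀ t, ∃ h : MvPolynomial (Fin N) k, X (e t) - P * h ∈ I := by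
      intro t
      have h1 : Ideal.span {l₁, l₂, l₃} ≤ Ideal.comap q (Ideal.span {π}) := by
        rw [Ideal.span_le]
        intro y hy
        simp only [Set.mem_insert_iff, Set.mem_singleton_iff] at hy
        show q y ∈ Ideal.span {π}
        rw [Ideal.mem_span_singleton]
        rcases hy with rfl | rfl | rfl
        · exact hπ1
        · exact hπ2
        · exact hπ3
      have h2 : q (X (e t)) ∈ Ideal.span {π} := h1 (hz t)
      rw [Ideal.mem_span_singleton] at h2
      obtain ⟨s, hs⟩ := h2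
      obtain ⟨h, rfl⟩ := hqs s
      refine ⟨h, ?_⟩
      rw [← hker, map_sub, map_mul, hP, hs, sub_self]
    have hV : ∀ x : Fin N → k, (∀ j, eval x (F j) = 0) → ∀ g ∈ I, eval x g = 0 := by
      intro x hx g hg
      have h1 : I ≤ RingHom.ker (eval x) := by
        rw [hI, Ideal.span_le]
        rintro _ ⟨j, rfl⟩
        exact hx j
      exact h1 hg
    have hPV := hcod P (by
      rintro x hx ⟨t, ht⟩ hPx
      obtain ⟨h, hh⟩ := hzt t
      have h1 := hV x hx _ hh
      rw [map_sub, map_mul, hPx, zero_mul, sub_zero, eval_X] at h1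
      exact ht h1)
    have htop : I ⊔ Ideal.span {P} = ⊤ := by
      apply conic_null
      intro x
      by_cases hx : ∀ j, eval x (F j) = 0
      · exact ⟨P, Ideal.mem_sup_right (Ideal.mem_span_singleton_self P), hPV x hx⟩
      · push Not at hx
        obtain ⟨j, hj⟩ := hx
        refine ⟨F j, Ideal.mem_sup_left ?_, hj⟩
        rw [hI]
        exact Ideal.subset_span ⟨j, rfl⟩
    have h1 : (1 : MvPolynomial (Fin N) k) ∈ I ⊔ Ideal.span {P} := by
      rw [htop]
      trivial
    obtain ⟨y, hy, z, hz', hyz⟩ := Submodule.mem_sup.1 h1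
    obtain ⟨s, rfl⟩ := Ideal.mem_span_singleton.1 hz'
    apply hπp.not_isUnit
    have h2 : π * q s = 1 := by
      have h3 := congrArg q hyz
      rw [map_add, map_mul, hP, map_one, (hker y).2 hy, zero_add] at h3
      exact h3
    exact IsUnit.of_mul_eq_one _ h2

private theorem conic_final {k : Type*} [Field k] [IsAlgClosed k] {N c : ℕ}
    {F : Fin c → MvPolynomial (Fin N) k}
    (hdom : IsDomain (MvPolynomial (Fin N) k ⧸ Ideal.span (Set.range F)))
    (hufd : UniqueFactorizationMonoid (MvPolynomial (Fin N) k ⧸ Ideal.span (Set.range F)))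
    (a : Fin N → ℕ) (d : Fin c → ℕ) (hF : ∀ j, (F j).IsWeightedHomogeneous a (d j))
    (e : Fin 3 → Fin N) (j₀ : Fin c)
    (hcod : ∀ P : MvPolynomial (Fin N) k,
      (∀ x : Fin N → k, (∀ j, eval x (F j) = 0) → (∃ t, x (e t) ≠ 0) → eval x P ≠ 0) →
      ∀ x : Fin N → k, (∀ j, eval x (F j) = 0) → eval x P ≠ 0)
    (l₁ l₂ l₃ : MvPolynomial (Fin N) k) (A : k) (hA : A ≠ 0)
    (hFj : F j₀ = l₁ * l₂ + C A * l₃ ^ 2)
    (hz : ∀ t, X (e t) ∈ Ideal.span {l₁, l₂, l₃}) (hl₁ : l₁.IsWeightedHomogeneous a 1)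
    (x₀ : Fin N → k) (hx₀ : ∀ j, eval x₀ (F j) = 0) (hl₁x : eval x₀ l₁ ≠ 0) : False := by
  have hevF : ∀ g ∈ Ideal.span (Set.range F),
      (conicEv a x₀ : MvPolynomial (Fin N) k →+* Polynomial k) g = 0 := by
    intro g hg
    have h1 : Ideal.span (Set.range F) ≤
        RingHom.ker (conicEv a x₀ : MvPolynomial (Fin N) k →+* Polynomial k) := by
      rw [Ideal.span_le]
      rintro _ ⟨j, rfl⟩
      show conicEv a x₀ (F j) = 0
      rw [conicEv_eq _ _ _ _ (hF j), hx₀ j, map_zero, mul_zero]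
    exact h1 hg
  exact conic_core (Ideal.Quotient.mk _) Ideal.Quotient.mk_surjective _ rfl
    (fun g => Ideal.Quotient.eq_zero_iff_mem) a e j₀ hcod l₁ l₂ l₃ A hA hFj hz hl₁ x₀ hl₁x
    (Ideal.Quotient.lift _ (conicEv a x₀ : MvPolynomial (Fin N) k →+* Polynomial k) hevF)
    (fun g => Ideal.Quotient.lift_mk _ _ _)

/-- Diagonalisation of a nondegenerate ternary form, in the form `x y + A z²`. -/
private theorem conic_diag {k : Type*} [Field k] [IsAlgClosed k] (h2 : (2 : k) ≠ 0)
    (B : Matrix (Fin 3) (Fin 3) k) (hsym : ∀ t s, B t s = B s t) (hdet : B.det ≠ 0) :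
    ∃ (L P : Matrix (Fin 3) (Fin 3) k) (A : k), A ≠ 0 ∧ P * L = 1 ∧
      ∀ x : Fin 3 → k, ∑ t, ∑ s, B t s * (x t * x s) =
        (L.mulVec x) 0 * (L.mulVec x) 1 + A * (L.mulVec x) 2 ^ 2 := by
  obtain ⟨Bf, hBf⟩ : ∃ Bf : LinearMap.BilinForm k (Fin 3 → k), Bf = Matrix.toBilin' B := ⟨_, rfl⟩
  have hBa : ∀ x y, Bf x y = ∑ t, ∑ s, B t s * (x t * y s) := by
    intro x y
    rw [hBf, Matrix.toBilin'_apply]
    exact Finset.sum_congr rfl fun t _ => Finset.sum_congr rfl fun s _ => by ring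
  have hBs : LinearMap.IsSymm Bf := by
    refine ⟨fun x y => ?_⟩
    show Bf x y = Bf y x
    rw [hBa, hBa, Finset.sum_comm]
    refine Finset.sum_congr rfl fun t _ => Finset.sum_congr rfl fun s _ => ?_
    rw [hsym]
    ring
  let _ : Invertible (2 : k) := invertibleOfNonzero h2
  obtain ⟨v', hv'⟩ := LinearMap.BilinForm.exists_orthogonal_basis hBs
  have hfr : Module.finrank k (Fin 3 → k) = 3 := by simp
  obtain ⟨v, hv⟩ : ∃ v : Module.Basis (Fin 3) k (Fin 3 → k), ∀ i j, i ≠ j → Bf (v i) (v j) = 0 := by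
    refine ⟨v'.reindex (finCongr hfr), fun i j hij => ?_⟩
    rw [Module.Basis.reindex_apply, Module.Basis.reindex_apply]
    exact hv' (fun h => hij ((finCongr hfr).symm.injective h))
  have hd : ∀ i, Bf (v i) (v i) ≠ 0 := by
    intro i h0
    have h1 : ∀ y, Bf (v i) y = 0 := by
      intro y
      rw [← v.sum_repr y, map_sum]
      refine Finset.sum_eq_zero fun j _ => ?_
      rw [map_smul]
      by_cases hij : i = j
      · rw [← hij, h0, smul_zero]
      · rw [hv i j hij, smul_zero]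
    have h3 : Matrix.vecMul (v i) B = 0 := by
      funext s
      have h4 := h1 (Pi.single s 1)
      rw [hBa] at h4
      rw [Pi.zero_apply, ← h4, Matrix.vecMul, dotProduct]
      refine Finset.sum_congr rfl fun t _ => ?_
      rw [Finset.sum_eq_single s (fun s' _ hs' => by rw [Pi.single_eq_of_ne hs']; ring)
        (fun h => absurd (Finset.mem_univ s) h), Pi.single_eq_same]
      ring
    exact v.ne_zero i (Matrix.eq_zero_of_vecMul_eq_zero hdet h3)
  obtain ⟨s0, hs0⟩ := IsAlgClosed.exists_pow_nat_eq (Bf (v 0) (v 0)) two_pos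
  obtain ⟨s1, hs1⟩ := IsAlgClosed.exists_pow_nat_eq (Bf (v 1) (v 1)) two_pos
  obtain ⟨ι, hι⟩ := IsAlgClosed.exists_pow_nat_eq (-1 : k) two_pos
  have hs0' : s0 ≠ 0 := by
    rintro rfl
    exact hd 0 (by rw [← hs0]; ring)
  have hs1' : s1 ≠ 0 := by
    rintro rfl
    exact hd 1 (by rw [← hs1]; ring)
  have hι' : ι ≠ 0 := by
    rintro rfl
    have : (-1 : k) = 0 := by rw [← hι]; ring
    exact one_ne_zero (neg_eq_zero.1 this)
  obtain ⟨T, hT⟩ : ∃ T : Matrix (Fin 3) (Fin 3) k, T = Matrix.of (fun i t =>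
    v.repr (Pi.single t 1) i) := ⟨_, rfl⟩
  have hTx : ∀ x i, (T.mulVec x) i = v.repr x i := by
    intro x i
    have h1 : x = ∑ t, x t • (Pi.single t (1 : k) : Fin 3 → k) := by
      conv_lhs => rw [pi_eq_sum_univ x]
      refine Finset.sum_congr rfl fun t _ => ?_
      congr 1
      funext s
      simp [Pi.single_apply, eq_comm]
    conv_rhs => rw [h1]
    rw [map_sum, Finsupp.finsetSum_apply, Matrix.mulVec, dotProduct]
    refine Finset.sum_congr rfl fun t _ => ?_
    rw [map_smul, Finsupp.smul_apply, smul_eq_mul, hT, Matrix.of_apply]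
    ring
  obtain ⟨S, hS⟩ : ∃ S : Matrix (Fin 3) (Fin 3) k, S = Matrix.of (fun t i => v i t) := ⟨_, rfl⟩
  have hST : S * T = 1 := by
    ext t s
    rw [Matrix.mul_apply, Matrix.one_apply]
    have h1 := congrFun (v.sum_repr (Pi.single s 1)) t
    rw [Finset.sum_apply] at h1
    rw [hS, hT]
    simp only [Matrix.of_apply]
    rw [show (if t = s then (1 : k) else 0) = (Pi.single s (1 : k) : Fin 3 → k) t by
      rw [Pi.single_apply], ← h1]
    refine Finset.sum_congr rfl fun i _ => ?_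
    rw [Pi.smul_apply, smul_eq_mul]
    ring
  obtain ⟨M, hM⟩ : ∃ M : Matrix (Fin 3) (Fin 3) k, M =
    !![s0, ι * s1, 0; s0, -(ι * s1), 0; 0, 0, 1] := ⟨_, rfl⟩
  obtain ⟨M', hM'⟩ : ∃ M' : Matrix (Fin 3) (Fin 3) k, M' =
    !![(2 * s0)⁻¹, (2 * s0)⁻¹, 0; (2 * (ι * s1))⁻¹, -(2 * (ι * s1))⁻¹, 0; 0, 0, 1] := ⟨_, rfl⟩
  have hMM : M' * M = 1 := by
    rw [hM, hM', Matrix.mul_fin_three]
    ext i j
    fin_cases i <;> fin_cases j <;> simp <;> field_simp <;> ring
  refine ⟨M * T, S * M', Bf (v 2) (v 2), hd 2, ?_, ?_⟩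
  · rw [Matrix.mul_assoc, ← Matrix.mul_assoc M', hMM, Matrix.one_mul, hST]
  · intro x
    rw [← hBa]
    have h1 : Bf x x = v.repr x 0 ^ 2 * Bf (v 0) (v 0) + v.repr x 1 ^ 2 * Bf (v 1) (v 1) +
        v.repr x 2 ^ 2 * Bf (v 2) (v 2) := by
      conv_lhs => rw [← v.sum_repr x]
      rw [Fin.sum_univ_three]
      simp only [map_add, map_smul, LinearMap.add_apply, LinearMap.smul_apply, smul_eq_mul]
      rw [hv 0 1 (by decide), hv 0 2 (by decide), hv 1 0 (by decide), hv 1 2 (by decide),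
        hv 2 0 (by decide), hv 2 1 (by decide)]
      ring
    rw [h1, ← Matrix.mulVec_mulVec]
    have e0 : (M.mulVec (T.mulVec x)) 0 = s0 * v.repr x 0 + ι * s1 * v.repr x 1 := by
      rw [hM]
      simp [Matrix.mulVec, dotProduct, Fin.sum_univ_three]
      rw [← hTx x 0, ← hTx x 1]
      simp [Matrix.mulVec, dotProduct, Fin.sum_univ_three]
    have e1 : (M.mulVec (T.mulVec x)) 1 = s0 * v.repr x 0 - ι * s1 * v.repr x 1 := by
      rw [hM]
      simp [Matrix.mulVec, dotProduct, Fin.sum_univ_three]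
      rw [← hTx x 0, ← hTx x 1]
      simp [Matrix.mulVec, dotProduct, Fin.sum_univ_three]
      ring
    have e2 : (M.mulVec (T.mulVec x)) 2 = v.repr x 2 := by
      rw [hM]
      simp [Matrix.mulVec, dotProduct, Fin.sum_univ_three]
      rw [← hTx x 2]
      simp [Matrix.mulVec, dotProduct, Fin.sum_univ_three]
    rw [e0, e1, e2, ← hs0, ← hs1]
    linear_combination (v.repr x 1 ^ 2 * s1 ^ 2) * hι

/-- Extension by zero. -/
private def conicExt {k : Type*} [Field k] {N : ℕ} (e : Fin 3 → Fin N) (y : Fin 3 → k) :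
    Fin N → k := fun i => ∑ t, if e t = i then y t else 0

private theorem conicExt_apply {k : Type*} [Field k] {N : ℕ} {e : Fin 3 → Fin N}
    (he : Function.Injective e) (y : Fin 3 → k) (t : Fin 3) : conicExt e y (e t) = y t := by
  unfold conicExt
  rw [Finset.sum_eq_single t (fun s _ hs => if_neg (fun h => hs (he h)))
    (fun h => absurd (Finset.mem_univ t) h), if_pos rfl]

private theorem conicExt_zero {k : Type*} [Field k] {N : ℕ} {e : Fin 3 → Fin N}
    (y : Fin 3 → k) {i : Fin N} (hi : i ∉ Set.range e) : conicExt e y i = 0 := by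
  unfold conicExt
  exact Finset.sum_eq_zero fun t _ => if_neg (fun h => hi ⟨t, h⟩)

/-- Polynomials of weight zero at points supported on the range of `e`. -/
private theorem conic_eval {k : Type*} [Field k] {N : ℕ} {e : Fin 3 → Fin N} {a : Fin N → ℕ}
    (ha : ∀ t, a (e t) = 1) {h : MvPolynomial (Fin N) k} (hh : h.IsWeightedHomogeneous a 0)
    (z : Fin N → k) (hz : ∀ i, i ∉ Set.range e → z i = 0) : eval z h = coeff 0 h := by
  classical
  rw [eval_eq', Finset.sum_eq_single 0]
  · simp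
  · intro m hm hm0
    have h1 := hh (mem_support_iff.1 hm)
    rw [Finsupp.weight_apply, Finsupp.sum_fintype _ _ (fun _ => by simp)] at h1
    obtain ⟨i, hi⟩ : ∃ i, m i ≠ 0 := by
      by_contra hcon
      push Not at hcon
      exact hm0 (Finsupp.ext hcon)
    have h2 := (Finset.sum_eq_zero_iff.1 h1) i (Finset.mem_univ i)
    have h3 : i ∉ Set.range e := by
      rintro ⟨t, rfl⟩
      rw [ha, smul_eq_mul, mul_one] at h2
      exact hi h2
    rw [Finset.prod_eq_zero (Finset.mem_univ i) (by rw [hz i h3, zero_pow hi]), mul_zero]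
  · intro h1
    rw [notMem_support_iff.1 h1, zero_mul]

/-- Polynomials of nonpositive weight. -/
private theorem conic_const {k : Type*} [Field k] {N r : ℕ} {w : Fin N → Fin r → ℤ}
    {τ : Fin r → ℤ} {l : Fin r → ℤ} (hl : ∀ i, 0 < l ⬝ᵥ w i) {h : MvPolynomial (Fin N) k}
    (hh : h.IsWeightedHomogeneous w τ) (hτ : l ⬝ᵥ τ ≤ 0) :
    h = C (coeff 0 h) ∧ (h ≠ 0 → τ = 0) := by
  classical
  have key : ∀ m, coeff m h ≠ 0 → m = 0 := by
    intro m hm
    have h1 := weight_sum hh hm
    have h2 : ∑ i, (m i : ℤ) * (l ⬝ᵥ w i) ≤ 0 := by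
      rw [← dot_sum, h1]
      exact hτ
    have h3 : ∀ i ∈ Finset.univ, 0 ≤ (m i : ℤ) * (l ⬝ᵥ w i) := fun i _ =>
      mul_nonneg (by positivity) (hl i).le
    have h4 := (Finset.sum_eq_zero_iff_of_nonneg h3).1 (le_antisymm h2 (Finset.sum_nonneg h3))
    ext i
    have h5 := h4 i (Finset.mem_univ i)
    rcases mul_eq_zero.1 h5 with h6 | h6
    · exact_mod_cast h6
    · exact absurd h6 (hl i).ne'
  constructor
  · ext m
    rw [coeff_C]
    by_cases hm : (0 : Fin N →₀ ℕ) = m
    · rw [if_pos hm, hm]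
    · rw [if_neg hm]
      by_contra hcon
      exact hm (key m hcon).symm
  · intro hne
    obtain ⟨m, hm⟩ := (ne_zero_iff.1 hne)
    have h1 := weight_sum hh hm
    rw [← h1, key m hm]
    simp

private theorem conic_symm {k : Type*} [Field k] {N : ℕ} (F : MvPolynomial (Fin N) k)
    (i j : Fin N) : pderiv i (pderiv j F) = pderiv j (pderiv i F) := by
  classical
  by_cases hij : i = j
  · rw [hij]
  · ext m
    rw [coeff_pderiv, coeff_pderiv, coeff_pderiv, coeff_pderiv]
    have h1 : (m + Finsupp.single i 1 : Fin N →₀ ℕ) j = m j := by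
      simp [hij]
    have h2 : (m + Finsupp.single j 1 : Fin N →₀ ℕ) i = m i := by
      simp [Ne.symm hij]
    rw [h1, h2, add_right_comm]
    ring

/-- Euler's identity for the weights of the conic. -/
private theorem conic_euler {k : Type*} [Field k] {N : ℕ} {e : Fin 3 → Fin N}
    (he : Function.Injective e) {a : Fin N → ℕ} (ha : ∀ t, a (e t) = 1)
    (ha0 : ∀ i, i ∉ Set.range e → a i = 0) {G : MvPolynomial (Fin N) k} {n : ℕ}
    (hG : G.IsWeightedHomogeneous a n) : ∑ t, X (e t) * pderiv (e t) G = n • G := by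
  classical
  rw [← hG.sum_weight_X_mul_pderiv]
  have h1 : ∑ t, X (e t) * pderiv (e t) G =
      ∑ i ∈ Finset.univ.image e, X i * pderiv i G :=
    (Finset.sum_image (f := fun i => X i * pderiv i G) (fun x _ y _ h => he h)).symm
  rw [h1]
  have h2 : ∑ i ∈ Finset.univ.image e, X i * pderiv i G =
      ∑ i ∈ Finset.univ.image e, a i • (X i * pderiv i G) := by
    refine Finset.sum_congr rfl fun i hi => ?_
    obtain ⟨t, -, rfl⟩ := Finset.mem_image.1 hi
    rw [ha, one_smul]
  rw [h2]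
  refine Finset.sum_subset (Finset.subset_univ _) fun i _ hi => ?_
  rw [ha0 i, zero_smul]
  rintro ⟨t, rfl⟩
  exact hi (Finset.mem_image_of_mem e (Finset.mem_univ t))

/-- The second derivatives. -/
private noncomputable def conicH {k : Type*} [Field k] {N : ℕ} (e : Fin 3 → Fin N)
    (F : MvPolynomial (Fin N) k) (t s : Fin 3) : MvPolynomial (Fin N) k :=
  pderiv (e t) (pderiv (e s) F)

/-- The matrix of the conic. -/
private noncomputable def conicB {k : Type*} [Field k] {N : ℕ} (e : Fin 3 → Fin N)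
    (F : MvPolynomial (Fin N) k) : Matrix (Fin 3) (Fin 3) k :=
  Matrix.of (fun t s => coeff 0 (conicH e F t s))

private theorem conicB_symm {k : Type*} [Field k] {N : ℕ} (e : Fin 3 → Fin N)
    (F : MvPolynomial (Fin N) k) (t s : Fin 3) : conicB e F t s = conicB e F s t := by
  unfold conicB conicH
  rw [Matrix.of_apply, Matrix.of_apply, conic_symm]

private theorem conic_first {k : Type*} [Field k] {N : ℕ} {e : Fin 3 → Fin N}
    (he : Function.Injective e) {a : Fin N → ℕ} (ha : ∀ t, a (e t) = 1)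
    (ha0 : ∀ i, i ∉ Set.range e → a i = 0) {F : MvPolynomial (Fin N) k}
    (hF : F.IsWeightedHomogeneous a 2) (t : Fin 3) :
    pderiv (e t) F = ∑ s, X (e s) * conicH e F s t := by
  have h1 : (pderiv (e t) F).IsWeightedHomogeneous a 1 := hF.pderiv (by rw [ha])
  have h2 := conic_euler he ha ha0 h1
  rw [one_smul] at h2
  exact h2.symm

private theorem conic_H0 {k : Type*} [Field k] {N : ℕ} {e : Fin 3 → Fin N}
    {a : Fin N → ℕ} (ha : ∀ t, a (e t) = 1) {F : MvPolynomial (Fin N) k}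
    (hF : F.IsWeightedHomogeneous a 2) (t s : Fin 3) :
    (conicH e F t s).IsWeightedHomogeneous a 0 := by
  have h1 : (pderiv (e s) F).IsWeightedHomogeneous a 1 := hF.pderiv (by rw [ha])
  exact h1.pderiv (by rw [ha])

private theorem conic_det {k : Type*} [Field k] {N : ℕ} {e : Fin 3 → Fin N}
    (he : Function.Injective e) {a : Fin N → ℕ} (ha : ∀ t, a (e t) = 1)
    (ha0 : ∀ i, i ∉ Set.range e → a i = 0) {F : MvPolynomial (Fin N) k}
    (hF : F.IsWeightedHomogeneous a 2)
    (hQ : ∀ z : Fin N → k, (∀ i, i ∉ Set.range e → z i = 0) →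
      (∀ t, eval z (pderiv (e t) F) = 0) → z = 0) : (conicB e F).det ≠ 0 := by
  intro hdet
  obtain ⟨v, hv, hBv⟩ := Matrix.exists_mulVec_eq_zero_iff.2 hdet
  apply hv
  have hz : ∀ i, i ∉ Set.range e → conicExt e v i = 0 := fun i hi => conicExt_zero v hi
  have h1 := hQ (conicExt e v) hz (by
    intro t
    rw [conic_first he ha ha0 hF t, map_sum]
    have h2 := congrFun hBv t
    rw [Matrix.mulVec, dotProduct, Pi.zero_apply] at h2
    rw [← h2]
    refine Finset.sum_congr rfl fun s _ => ?_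
    rw [map_mul, eval_X, conicExt_apply he, conic_eval ha (conic_H0 ha hF s t) _ hz,
      conicB_symm]
    unfold conicB
    rw [Matrix.of_apply]
    ring)
  funext t
  have h2 := congrFun h1 (e t)
  rw [conicExt_apply he] at h2
  exact h2

private theorem conic_mem {R : Type*} [CommRing R] {I : Ideal R} {x y : R} (h : x = y)
    (hy : y ∈ I) : x ∈ I := by
  rw [h]
  exact hy

private theorem conic_std {k : Type*} [Field k] [IsAlgClosed k] (h2 : (2 : k) ≠ 0) {N c r : ℕ}
    {w : Fin N → Fin r → ℤ} {δ : Fin c → Fin r → ℤ} {F : Fin c → MvPolynomial (Fin N) k}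
    (hF : ∀ j, (F j).IsWeightedHomogeneous w (δ j))
    (l : Fin r → ℤ) (hl : ∀ i, 0 < l ⬝ᵥ w i)
    (hdom : IsDomain (MvPolynomial (Fin N) k ⧸ Ideal.span (Set.range F)))
    (hufd : UniqueFactorizationMonoid (MvPolynomial (Fin N) k ⧸ Ideal.span (Set.range F)))
    (h0 : ∀ j, coeff 0 (F j) = 0)
    (a : Fin N → ℕ) (d : Fin c → ℕ) (hFa : ∀ j, (F j).IsWeightedHomogeneous a (d j))
    (e : Fin 3 → Fin N) (he : Function.Injective e)
    (ha : ∀ t, a (e t) = 1) (ha0 : ∀ i, i ∉ Set.range e → a i = 0)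
    (j₀ : Fin c) (hj₀ : d j₀ = 2) (hj : ∀ j, j ≠ j₀ → d j = 0)
    (hQ : ∀ z : Fin N → k, (∀ i, i ∉ Set.range e → z i = 0) →
      (∀ t, eval z (pderiv (e t) (F j₀)) = 0) → z = 0)
    (hcod : ∀ P : MvPolynomial (Fin N) k,
      (∀ x : Fin N → k, (∀ j, eval x (F j) = 0) → (∃ t, x (e t) ≠ 0) → eval x P ≠ 0) →
      ∀ x : Fin N → k, (∀ j, eval x (F j) = 0) → eval x P ≠ 0)
    (hw0 : w (e 0) + w (e 0) = δ j₀) (hw12 : w (e 1) + w (e 2) = δ j₀)
    (hl12 : l ⬝ᵥ w (e 2) ≤ l ⬝ᵥ w (e 1))
    (hor : w (e 1) = w (e 2) ∨ (conicB e (F j₀) 0 0 ≠ 0 ∧ conicB e (F j₀) 1 2 ≠ 0)) :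
    False := by
  classical
  have hFj₀ : (F j₀).IsWeightedHomogeneous a 2 := by
    rw [← hj₀]
    exact hFa j₀
  obtain ⟨H, hH⟩ : ∃ H : Fin 3 → Fin 3 → MvPolynomial (Fin N) k, H = conicH e (F j₀) := ⟨_, rfl⟩
  obtain ⟨B, hB⟩ : ∃ B : Matrix (Fin 3) (Fin 3) k, B = conicB e (F j₀) := ⟨_, rfl⟩
  have hBH : ∀ t s, B t s = coeff 0 (H t s) := by
    intro t s
    rw [hB, hH]
    rfl
  have hBs : ∀ t s, B t s = B s t := by
    intro t s
    rw [hB]
    exact conicB_symm e _ t s
  have hHs : ∀ t s, H t s = H s t := by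
    intro t s
    rw [hH]
    exact conic_symm _ _ _
  have hdet : B.det ≠ 0 := by
    rw [hB]
    exact conic_det he ha ha0 hFj₀ hQ
  rw [← hB] at hor
  have hHw : ∀ t s, (H t s).IsWeightedHomogeneous w (δ j₀ - w (e s) - w (e t)) := by
    intro t s
    rw [hH]
    have h3 : (pderiv (e s) (F j₀)).IsWeightedHomogeneous w (δ j₀ - w (e s)) :=
      (hF j₀).pderiv (sub_add_cancel _ _)
    exact h3.pderiv (sub_add_cancel _ _)
  have htwo : (2 : MvPolynomial (Fin N) k) * F j₀ =
      ∑ t, ∑ s, X (e t) * X (e s) * H t s := by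
    have h3 := conic_euler he ha ha0 hFj₀
    rw [two_nsmul, ← two_mul] at h3
    rw [← h3]
    refine Finset.sum_congr rfl fun t _ => ?_
    rw [conic_first he ha ha0 hFj₀ t, Finset.mul_sum]
    refine Finset.sum_congr rfl fun s _ => ?_
    rw [← hH, hHs s t]
    ring
  have hV0 : ∀ z : Fin N → k, (∀ i, i ∉ Set.range e → z i = 0) → eval z (F j₀) = 0 →
      ∀ j, eval z (F j) = 0 := by
    intro z hz hz0 j
    by_cases h3 : j = j₀
    · rw [h3]
      exact hz0
    · rw [conic_eval ha (by rw [← hj j h3]; exact hFa j) z hz, h0]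
  have hXw : ∀ t, (X (e t) : MvPolynomial (Fin N) k).IsWeightedHomogeneous a 1 := by
    intro t
    have h3 := isWeightedHomogeneous_X k a (e t)
    rwa [ha] at h3
  have h2C : (C (2 : k) : MvPolynomial (Fin N) k) = 2 := by
    rw [show (2 : k) = ((2 : ℕ) : k) by norm_num, map_natCast]
    norm_num
  have hhalf : (C (2⁻¹ : k) : MvPolynomial (Fin N) k) * 2 = 1 := by
    rw [← h2C, ← C_mul, inv_mul_cancel₀ h2, C_1]
  by_cases hw : w (e 1) = w (e 2)
  · -- all weights are equal
    have hwe : ∀ t, w (e t) + w (e t) = δ j₀ := by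
      intro t
      fin_cases t
      · exact hw0
      · show w (e 1) + w (e 1) = δ j₀
        rw [← hw12, hw]
      · show w (e 2) + w (e 2) = δ j₀
        rw [← hw12, hw]
    have hwe' : ∀ t s, w (e t) = w (e s) := by
      intro t s
      have h3 : w (e t) + w (e t) = w (e s) + w (e s) := by rw [hwe, hwe]
      funext i
      have h4 := congrFun h3 i
      simp only [Pi.add_apply] at h4
      omega
    have hHC : ∀ t s, H t s = C (B t s) := by
      intro t s
      have h3 : δ j₀ - w (e s) - w (e t) = 0 := by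
        rw [← hwe t, hwe' s t]
        abel
      have h4 := hHw t s
      rw [h3] at h4
      rw [hBH]
      exact (conic_const hl h4 (by simp)).1
    obtain ⟨L, P, A, hA, hPL, hform⟩ := conic_diag h2 B hBs hdet
    have hLP : L * P = 1 := mul_eq_one_comm.1 hPL
    obtain ⟨lf, hlf⟩ : ∃ lf : Fin 3 → MvPolynomial (Fin N) k,
      lf = fun i => ∑ t, C (L i t) * X (e t) := ⟨_, rfl⟩
    have hlfx : ∀ (x : Fin N → k) (i : Fin 3), eval x (lf i) = (L.mulVec (fun t => x (e t))) i := by
      intro x i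
      rw [hlf, Matrix.mulVec, dotProduct]
      simp only [map_sum, map_mul, eval_C, eval_X]
    have hinf : Infinite k := IsAlgClosed.instInfinite
    refine conic_final hdom hufd a d hFa e j₀ hcod (C 2⁻¹ * lf 0) (lf 1) (lf 2) (A / 2)
      (div_ne_zero hA h2) ?_ ?_ ?_ (conicExt e (P.mulVec ![1, 0, 0])) ?_ ?_
    · apply MvPolynomial.funext
      intro x
      have h3 := congrArg (eval x) htwo
      rw [← h2C, map_mul, eval_C, map_sum] at h3
      have h4 : ∑ t, eval x (∑ s, X (e t) * X (e s) * H t s) =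
          ∑ t, ∑ s, B t s * (x (e t) * x (e s)) := by
        refine Finset.sum_congr rfl fun t _ => ?_
        rw [map_sum]
        refine Finset.sum_congr rfl fun s _ => ?_
        rw [hHC, map_mul, map_mul, eval_X, eval_X, eval_C]
        ring
      rw [h4, hform (fun t => x (e t))] at h3
      simp only [map_add, map_mul, map_pow, eval_C, hlfx]
      field_simp
      linear_combination h3
    · intro t
      have h3 : X (e t) = C (2 * P t 0) * (C 2⁻¹ * lf 0) + C (P t 1) * lf 1 +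
          C (P t 2) * lf 2 := by
        apply MvPolynomial.funext
        intro x
        simp only [map_add, map_mul, eval_C, eval_X, hlfx]
        have h4 : (P.mulVec (L.mulVec (fun t => x (e t)))) t = x (e t) := by
          rw [Matrix.mulVec_mulVec, hPL, Matrix.one_mulVec]
        rw [← h4]
        conv_lhs => rw [Matrix.mulVec, dotProduct, Fin.sum_univ_three]
        field_simp
      rw [h3]
      refine Ideal.add_mem _ (Ideal.add_mem _ (Ideal.mul_mem_left _ _ ?_)
        (Ideal.mul_mem_left _ _ ?_)) (Ideal.mul_mem_left _ _ ?_)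
      · exact Ideal.subset_span (by simp)
      · exact Ideal.subset_span (by simp)
      · exact Ideal.subset_span (by simp)
    · have h3 : (lf 0).IsWeightedHomogeneous a 1 := by
        rw [hlf]
        refine IsWeightedHomogeneous.sum _ _ _ fun t _ => ?_
        have h4 := (isWeightedHomogeneous_C a (L 0 t)).mul (hXw t)
        rwa [zero_add] at h4
      have h4 := (isWeightedHomogeneous_C a (2⁻¹ : k)).mul h3
      rwa [zero_add] at h4
    · have hz : ∀ i, i ∉ Set.range e → conicExt e (P.mulVec ![1, 0, 0]) i = 0 :=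
        fun i hi => conicExt_zero _ hi
      refine hV0 _ hz ?_
      have h3 := congrArg (eval (conicExt e (P.mulVec ![1, 0, 0]))) htwo
      rw [← h2C, map_mul, eval_C, map_sum] at h3
      have h4 : ∑ t, eval (conicExt e (P.mulVec ![1, 0, 0])) (∑ s, X (e t) * X (e s) * H t s) =
          ∑ t, ∑ s, B t s * ((P.mulVec ![1, 0, 0]) t * (P.mulVec ![1, 0, 0]) s) := by
        refine Finset.sum_congr rfl fun t _ => ?_
        rw [map_sum]
        refine Finset.sum_congr rfl fun s _ => ?_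
        rw [hHC, map_mul, map_mul, eval_X, eval_X, eval_C, conicExt_apply he, conicExt_apply he]
        ring
      rw [h4, hform (P.mulVec ![1, 0, 0]), Matrix.mulVec_mulVec, hLP, Matrix.one_mulVec] at h3
      have h5 : (2 : k) * eval (conicExt e (P.mulVec ![1, 0, 0])) (F j₀) = 0 := by
        rw [h3]
        simp
      exact (mul_eq_zero.1 h5).resolve_left h2
    · rw [map_mul, eval_C, hlfx]
      have h3 : (fun t => conicExt e (P.mulVec ![1, 0, 0]) (e t)) = P.mulVec ![1, 0, 0] := by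
        ext t
        exact conicExt_apply he _ t
      rw [h3, Matrix.mulVec_mulVec, hLP, Matrix.one_mulVec]
      simpa using h2
  · obtain ⟨hB00, hB12⟩ := hor.resolve_left hw
    have hlsub : l ⬝ᵥ (w (e 2) - w (e 1)) ≤ 0 := by
      rw [dotProduct_sub]
      linarith
    have hH11 : H 1 1 = 0 := by
      by_contra hne
      have h3 := hHw 1 1
      have h4 : δ j₀ - w (e 1) - w (e 1) = w (e 2) - w (e 1) := by
        rw [← hw12]
        abel
      rw [h4] at h3
      exact hw (sub_eq_zero.1 ((conic_const hl h3 hlsub).2 hne)).symm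
    have hH01 : H 0 1 = 0 := by
      by_contra hne
      have h3 := hHw 0 1
      have h4 : δ j₀ - w (e 1) - w (e 0) = w (e 0) - w (e 1) := by
        rw [← hw0]
        abel
      rw [h4] at h3
      have h5 : l ⬝ᵥ (w (e 0) - w (e 1)) ≤ 0 := by
        have h6 : l ⬝ᵥ (w (e 0) - w (e 1)) + l ⬝ᵥ (w (e 0) - w (e 1)) =
            l ⬝ᵥ (w (e 2) - w (e 1)) := by
          rw [← dotProduct_add]
          congr 1
          have h7 : w (e 0) + w (e 0) = w (e 1) + w (e 2) := by rw [hw0, hw12]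
          have h8 : w (e 0) - w (e 1) + (w (e 0) - w (e 1)) =
            (w (e 0) + w (e 0)) - w (e 1) - w (e 1) := by abel
          rw [h8, h7]
          abel
        linarith
      have h6 := sub_eq_zero.1 ((conic_const hl h3 h5).2 hne)
      apply hw
      have h7 : w (e 1) + w (e 1) = w (e 1) + w (e 2) := by rw [← h6, hw0, h6, hw12]
      exact add_left_cancel h7
    have hH10 : H 1 0 = 0 := by rw [hHs, hH01]
    have hH00 : H 0 0 = C (B 0 0) := by
      have h3 := hHw 0 0
      have h4 : δ j₀ - w (e 0) - w (e 0) = 0 := by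
        rw [← hw0]
        abel
      rw [h4] at h3
      rw [hBH]
      exact (conic_const hl h3 (by simp)).1
    have hH12 : H 1 2 = C (B 1 2) := by
      have h3 := hHw 1 2
      have h4 : δ j₀ - w (e 2) - w (e 1) = 0 := by
        rw [← hw12]
        abel
      rw [h4] at h3
      rw [hBH]
      exact (conic_const hl h3 (by simp)).1
    have hH21 : H 2 1 = C (B 1 2) := by rw [hHs, hH12]
    have hH20 : H 2 0 = H 0 2 := hHs 2 0
    rw [Fin.sum_univ_three] at htwo
    simp only [Fin.sum_univ_three] at htwo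
    rw [hH11, hH01, hH10, hH00, hH12, hH21, hH20] at htwo
    have hFe : F j₀ = X (e 2) * (C (B 1 2) * X (e 1) + X (e 0) * H 0 2 +
        C 2⁻¹ * (X (e 2) * H 2 2)) + C (B 0 0 / 2) * X (e 0) ^ 2 := by
      have h3 : (C (B 0 0 / 2) : MvPolynomial (Fin N) k) = C (2⁻¹ : k) * C (B 0 0) := by
        rw [← C_mul]
        congr 1
        field_simp
      rw [h3]
      have h4 : F j₀ = C (2⁻¹ : k) * (2 * F j₀) := by
        rw [← mul_assoc, hhalf, one_mul]
      rw [h4, htwo]
      linear_combination (X (e 0) * X (e 2) * H 0 2 + X (e 1) * X (e 2) * C (B 1 2)) * hhalf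
    obtain ⟨y, hy⟩ : ∃ y : Fin 3 → k, y = ![0, -(B 2 2) / (2 * B 1 2), 1] := ⟨_, rfl⟩
    have hz : ∀ i, i ∉ Set.range e → conicExt e y i = 0 := fun i hi => conicExt_zero _ hi
    have hy0 : y 0 = 0 := by rw [hy]; rfl
    have hy1 : y 1 = -(B 2 2) / (2 * B 1 2) := by rw [hy]; rfl
    have hy2 : y 2 = 1 := by rw [hy]; rfl
    refine conic_final hdom hufd a d hFa e j₀ hcod (X (e 2)) (C (B 1 2) * X (e 1) +
      X (e 0) * H 0 2 + C 2⁻¹ * (X (e 2) * H 2 2)) (X (e 0)) (B 0 0 / 2)
      (div_ne_zero hB00 h2) hFe ?_ (hXw 2) (conicExt e y) ?_ ?_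
    · intro t
      fin_cases t
      · exact Ideal.subset_span (by simp)
      · show X (e 1) ∈ _
        have h3 : X (e 1) = C (B 1 2)⁻¹ * (C (B 1 2) * X (e 1) +
            X (e 0) * H 0 2 + C 2⁻¹ * (X (e 2) * H 2 2)) +
            (-(C (B 1 2)⁻¹ * H 0 2)) * X (e 0) +
            (-(C (B 1 2)⁻¹ * (C 2⁻¹ * H 2 2))) * X (e 2) := by
          have h4 : (C (B 1 2)⁻¹ : MvPolynomial (Fin N) k) * C (B 1 2) = 1 := by
            rw [← C_mul, inv_mul_cancel₀ hB12, C_1]
          linear_combination (-X (e 1)) * h4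
        refine conic_mem h3 ?_
        refine Ideal.add_mem _ (Ideal.add_mem _ (Ideal.mul_mem_left _ _ ?_)
          (Ideal.mul_mem_left _ _ ?_)) (Ideal.mul_mem_left _ _ ?_)
        · exact Ideal.subset_span (by simp)
        · exact Ideal.subset_span (by simp)
        · exact Ideal.subset_span (by simp)
      · exact Ideal.subset_span (by simp)
    · refine hV0 _ hz ?_
      rw [hFe]
      simp only [map_add, map_mul, map_pow, eval_C, eval_X, conicExt_apply he, hy0, hy1, hy2]
      have h3 : eval (conicExt e y) (H 2 2) = B 2 2 := by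
        rw [hBH, hH]
        exact conic_eval ha (conic_H0 ha hFj₀ 2 2) _ hz
      rw [h3]
      field_simp
      ring
    · rw [eval_X, conicExt_apply he, hy2]
      exact one_ne_zero

theorem no_conic {k : Type*} [Field k] [IsAlgClosed k] (h2 : (2 : k) ≠ 0) {N c r : ℕ}
    {w : Fin N → Fin r → ℤ} {δ : Fin c → Fin r → ℤ} {F : Fin c → MvPolynomial (Fin N) k}
    (hF : ∀ j, (F j).IsWeightedHomogeneous w (δ j))
    (hproj : ∃ l : Fin r → ℤ, ∀ i, 0 < l ⬝ᵥ w i)
    (hdom : IsDomain (MvPolynomial (Fin N) k ⧸ Ideal.span (Set.range F)))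
    (hufd : UniqueFactorizationMonoid (MvPolynomial (Fin N) k ⧸ Ideal.span (Set.range F)))
    (h0 : ∀ j, coeff 0 (F j) = 0)
    (β : Fin r → ℤ) (e : Fin 3 → Fin N) (he : Function.Injective e)
    (he1 : ∀ t, β ⬝ᵥ w (e t) = 1) (he0 : ∀ i, i ∉ Set.range e → β ⬝ᵥ w i = 0)
    (j₀ : Fin c) (hj₀ : β ⬝ᵥ δ j₀ = 2) (hj : ∀ j, j ≠ j₀ → β ⬝ᵥ δ j = 0)
    (hQ : ∀ z : Fin N → k, (∀ i, i ∉ Set.range e → z i = 0) →
      (∀ t, eval z (pderiv (e t) (F j₀)) = 0) → z = 0)
    (hcod : ∀ P : MvPolynomial (Fin N) k,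
      (∀ x : Fin N → k, (∀ j, eval x (F j) = 0) → (∃ t, x (e t) ≠ 0) → eval x P ≠ 0) →
      ∀ x : Fin N → k, (∀ j, eval x (F j) = 0) → eval x P ≠ 0) : False := by
  classical
  obtain ⟨l, hl⟩ := hproj
  obtain ⟨a, haa⟩ : ∃ a : Fin N → ℕ, a = fun i => if i ∈ Set.range e then 1 else 0 := ⟨_, rfl⟩
  obtain ⟨d, hdd⟩ : ∃ d : Fin c → ℕ, d = fun j => if j = j₀ then 2 else 0 := ⟨_, rfl⟩
  have ha : ∀ t, a (e t) = 1 := by
    intro t
    rw [haa]
    exact if_pos ⟨t, rfl⟩
  have ha0 : ∀ i, i ∉ Set.range e → a i = 0 := by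
    intro i hi
    rw [haa]
    exact if_neg hi
  have hd₀ : d j₀ = 2 := by
    rw [hdd]
    exact if_pos rfl
  have hd0 : ∀ j, j ≠ j₀ → d j = 0 := by
    intro j hj
    rw [hdd]
    exact if_neg hj
  have hFa : ∀ j, (F j).IsWeightedHomogeneous a (d j) := by
    intro j
    refine conic_nat (hF j) β a ?_ (d j) ?_
    · intro i
      by_cases hi : i ∈ Set.range e
      · obtain ⟨t, rfl⟩ := hi
        rw [he1, ha]
        rfl
      · rw [he0 i hi, ha0 i hi]
        rfl
    · by_cases hjj : j = j₀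
      · rw [hjj, hj₀, hd₀]
        rfl
      · rw [hj j hjj, hd0 j hjj]
        rfl
  have hFj₀ : (F j₀).IsWeightedHomogeneous a 2 := by
    rw [← hd₀]
    exact hFa j₀
  have hdet := conic_det he ha ha0 hFj₀ hQ
  -- nonzero entries
  have hent : ∀ t s, conicB e (F j₀) t s ≠ 0 → w (e t) + w (e s) = δ j₀ := by
    intro t s hts
    have h3 : (pderiv (e s) (F j₀)).IsWeightedHomogeneous w (δ j₀ - w (e s)) :=
      (hF j₀).pderiv (sub_add_cancel _ _)
    have h4 : (conicH e (F j₀) t s).IsWeightedHomogeneous w (δ j₀ - w (e s) - w (e t)) :=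
      h3.pderiv (sub_add_cancel _ _)
    have h5 : coeff 0 (conicH e (F j₀) t s) ≠ 0 := hts
    have h6 := weight_sum h4 h5
    simp only [Finsupp.coe_zero, Pi.zero_apply, zero_smul, Finset.sum_const_zero] at h6
    have h7 : δ j₀ - w (e s) - w (e t) + (w (e t) + w (e s)) = w (e t) + w (e s) := by
      rw [← h6, zero_add]
    rw [← h7]
    abel
  -- the reduction to the standard labelling
  have hred : ∀ σ : Equiv.Perm (Fin 3), w (e (σ 0)) + w (e (σ 0)) = δ j₀ →
      w (e (σ 1)) + w (e (σ 2)) = δ j₀ → l ⬝ᵥ w (e (σ 2)) ≤ l ⬝ᵥ w (e (σ 1)) →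
      (w (e (σ 1)) = w (e (σ 2)) ∨ (conicB e (F j₀) (σ 0) (σ 0) ≠ 0 ∧
        conicB e (F j₀) (σ 1) (σ 2) ≠ 0)) → False := by
    intro σ s1 s2 s3 s4
    have hr : Set.range (e ∘ σ) = Set.range e := σ.surjective.range_comp e
    refine conic_std h2 hF l hl hdom hufd h0 a d hFa (e ∘ σ) (he.comp σ.injective)
      (fun t => ha (σ t)) (fun i hi => ha0 i (by rwa [hr] at hi)) j₀ hd₀ hd0 ?_ ?_ s1 s2 s3 s4
    · intro z hz hz'
      refine hQ z (fun i hi => hz i (by rwa [hr])) (fun t => ?_)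
      have h3 := hz' (σ.symm t)
      simpa using h3
    · intro P hP
      refine hcod P fun x hx ht => hP x hx ?_
      obtain ⟨t, ht⟩ := ht
      exact ⟨σ.symm t, by simpa using ht⟩
  have hB : ∀ σ : Equiv.Perm (Fin 3), conicB e (F j₀) (σ 0) (σ 0) ≠ 0 →
      conicB e (F j₀) (σ 1) (σ 2) ≠ 0 → False := by
    intro σ s1 s2
    rcases le_total (l ⬝ᵥ w (e (σ 2))) (l ⬝ᵥ w (e (σ 1))) with h3 | h3
    · exact hred σ (hent _ _ s1) (hent _ _ s2) h3 (Or.inr ⟨s1, s2⟩)
    · have e0 : (σ * Equiv.swap 1 2 : Equiv.Perm (Fin 3)) 0 = σ 0 := rfl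
      have e1 : (σ * Equiv.swap 1 2 : Equiv.Perm (Fin 3)) 1 = σ 2 := rfl
      have e2 : (σ * Equiv.swap 1 2 : Equiv.Perm (Fin 3)) 2 = σ 1 := rfl
      rw [conicB_symm] at s2
      refine hred (σ * Equiv.swap 1 2) ?_ ?_ ?_ (Or.inr ⟨?_, ?_⟩)
      · rw [e0]
        exact hent _ _ s1
      · rw [e1, e2]
        exact hent _ _ s2
      · rw [e1, e2]
        exact h3
      · rw [e0]
        exact s1
      · rw [e1, e2]
        exact s2
  -- all weights equal
  have hall : (∀ t, w (e t) + w (e t) = δ j₀) → False := by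
    intro hh
    have h12 : w (e 1) = w (e 2) := by
      have h3 : w (e 1) + w (e 1) = w (e 2) + w (e 2) := by rw [hh, hh]
      funext i
      have h4 := congrFun h3 i
      simp only [Pi.add_apply] at h4
      omega
    refine hred 1 (hh 0) ?_ ?_ (Or.inl h12)
    · show w (e 1) + w (e 2) = δ j₀
      rw [← h12]
      exact hh 1
    · show l ⬝ᵥ w (e 2) ≤ l ⬝ᵥ w (e 1)
      rw [h12]
  have hcyc : w (e 0) + w (e 1) = δ j₀ → w (e 1) + w (e 2) = δ j₀ → w (e 2) + w (e 0) = δ j₀ →
      False := by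
    intro c1 c2 c3
    apply hall
    have k1 : w (e 0) = w (e 2) := by
      have h3 : w (e 1) + w (e 0) = w (e 1) + w (e 2) := by rw [add_comm, c1, c2]
      exact add_left_cancel h3
    have k2 : w (e 1) = w (e 0) := by
      have h3 : w (e 2) + w (e 1) = w (e 2) + w (e 0) := by rw [add_comm, c2, c3]
      exact add_left_cancel h3
    intro t
    fin_cases t
    · show w (e 0) + w (e 0) = δ j₀
      rw [← c1, k2]
    · show w (e 1) + w (e 1) = δ j₀
      rw [← c1, k2]
    · show w (e 2) + w (e 2) = δ j₀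
      rw [← c3, k1]
  apply hdet
  rw [Matrix.det_fin_three]
  have t1 : conicB e (F j₀) 0 0 * conicB e (F j₀) 1 1 * conicB e (F j₀) 2 2 = 0 := by
    by_contra hne
    have n0 := left_ne_zero_of_mul (left_ne_zero_of_mul hne)
    have n1 := right_ne_zero_of_mul (left_ne_zero_of_mul hne)
    have n2 := right_ne_zero_of_mul hne
    apply hall
    intro t
    fin_cases t
    · exact hent _ _ n0
    · exact hent _ _ n1
    · exact hent _ _ n2
  have t2 : conicB e (F j₀) 0 0 * conicB e (F j₀) 1 2 * conicB e (F j₀) 2 1 = 0 := by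
    by_contra hne
    have n0 := left_ne_zero_of_mul (left_ne_zero_of_mul hne)
    have n1 := right_ne_zero_of_mul (left_ne_zero_of_mul hne)
    exact hB 1 n0 n1
  have t3 : conicB e (F j₀) 0 1 * conicB e (F j₀) 1 0 * conicB e (F j₀) 2 2 = 0 := by
    by_contra hne
    have n1 := right_ne_zero_of_mul (left_ne_zero_of_mul hne)
    have n2 := right_ne_zero_of_mul hne
    exact hB (Equiv.swap 0 2) n2 n1
  have t4 : conicB e (F j₀) 0 1 * conicB e (F j₀) 1 2 * conicB e (F j₀) 2 0 = 0 := by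
    by_contra hne
    have n0 := left_ne_zero_of_mul (left_ne_zero_of_mul hne)
    have n1 := right_ne_zero_of_mul (left_ne_zero_of_mul hne)
    have n2 := right_ne_zero_of_mul hne
    exact hcyc (hent _ _ n0) (hent _ _ n1) (hent _ _ n2)
  have t5 : conicB e (F j₀) 0 2 * conicB e (F j₀) 1 0 * conicB e (F j₀) 2 1 = 0 := by
    by_contra hne
    have n0 := left_ne_zero_of_mul (left_ne_zero_of_mul hne)
    have n1 := right_ne_zero_of_mul (left_ne_zero_of_mul hne)
    have n2 := right_ne_zero_of_mul hne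
    rw [conicB_symm] at n0 n1 n2
    exact hcyc (hent _ _ n1) (hent _ _ n2) (hent _ _ n0)
  have t6 : conicB e (F j₀) 0 2 * conicB e (F j₀) 1 1 * conicB e (F j₀) 2 0 = 0 := by
    by_contra hne
    have n0 := left_ne_zero_of_mul (left_ne_zero_of_mul hne)
    have n1 := right_ne_zero_of_mul (left_ne_zero_of_mul hne)
    exact hB (Equiv.swap 0 1) n1 n0
  rw [t1, t2, t3, t4, t5, t6]
  ring

end MV

end Pool.Agent.H.MP_2786f0_ag.h70
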