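import Pool.Agent.H.MP_2786f0_ag.h70.Exist

/-!
# Solutions with unknown leading coefficients
-/

namespace Pool.Agent.H.MP_2786f0_ag.h70

open Polynomial

/-- The polynomials of degree `a i` with unknown coefficients; the leading coefficients are the
variables `X i` of the inner polynomial ring. -/
noncomputable def gen3 (k : Type*) [Field k] {N : ℕ} (a : Fin N → ℕ) (i : Fin N) :
    (MvPolynomial (Σ i : Fin N, Fin (a i)) (MvPolynomial (Fin N) k))[X] :=
  C (MvPolynomial.C (MvPolynomial.X i)) * X ^ a i +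
    ∑ m : Fin (a i), C (MvPolynomial.X ⟨i, m⟩) * X ^ (m : ℕ)

/-- The solutions with the leading coefficients `x` are the trivial ones. -/
def Rigid {k : Type*} [Field k] {N c : ℕ} (a : Fin N → ℕ) (F : Fin c → MvPolynomial (Fin N) k)
    (x : Fin N → k) : Prop :=
  ∀ i₀, 1 ≤ a i₀ → x i₀ ≠ 0 → ∀ φ : Fin N → k[X], (∀ i, (φ i).natDegree ≤ a i) →
    (∀ i, (φ i).coeff (a i) = x i) → (∀ j, MvPolynomial.aeval φ (F j) = 0) →
    (φ i₀).coeff 0 = 0 → ∀ i, φ i = C (x i) * X ^ a i

end Pool.Agent.H.MP_2786f0_ag.h70
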