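import Pool.Agent.H.MP_2786f0_ag.C.Final
import Pool.Agent.H.MP_2786f0_ag.h70.K.Defs

/-!
# Curves of degree one on a Fano variety: a point which is not rigid
-/

namespace Pool.Agent.H.MP_2786f0_ag.h70

open Polynomial

private theorem Fano_sum {ι : Type*} [Fintype ι] (b : ι → ℕ) {n : ℕ}
    (e : {i // 0 < b i} ≃ Fin n) : ∑ l, b (e.symm l).1 = ∑ i, b i := by
  classical
  rw [e.symm.sum_comp (fun i : {i // 0 < b i} => b i.1),
    ← Finset.sum_subtype (Finset.univ.filter fun i => 0 < b i) (by simp) (fun i => b i),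
    Finset.sum_filter]
  refine Finset.sum_congr rfl fun i _ => ?_
  split_ifs with h
  · rfl
  · omega

/-- The polynomial with one variable which belongs to a binary form. -/
private theorem Fano_form {k : Type*} [Field k] {n : ℕ} (f : MvPolynomial (Fin 2) k)
    (hf : f.IsHomogeneous n) :
    (MvPolynomial.aeval ![X, 1] f : k[X]).natDegree ≤ n ∧
      (MvPolynomial.aeval ![X, 1] f : k[X]).coeff n = MvPolynomial.eval ![1, 0] f := by
  have h1 : (MvPolynomial.aeval ![X, 1] f : k[X]) =
      ∑ m ∈ f.support, C (MvPolynomial.coeff m f) * X ^ (m 0) := by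
    rw [MvPolynomial.aeval_def, MvPolynomial.eval₂_eq']
    refine Finset.sum_congr rfl fun m _ => ?_
    rw [Fin.prod_univ_two]
    simp
  have h2 : ∀ m ∈ f.support, m 0 + m 1 = n := by
    intro m hm
    have h3 := hf (MvPolynomial.mem_support_iff.1 hm)
    rw [Finsupp.weight_apply, Finsupp.sum_fintype _ _ (fun _ => by simp), Fin.sum_univ_two] at h3
    simpa using h3
  constructor
  · rw [h1]
    refine natDegree_sum_le_of_forall_le _ _ fun m hm => ?_
    refine (natDegree_C_mul_X_pow_le _ _).trans ?_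
    have := h2 m hm
    omega
  · rw [h1, finsetSum_coeff, MvPolynomial.eval_eq']
    refine Finset.sum_congr rfl fun m hm => ?_
    rw [coeff_C_mul_X_pow, Fin.prod_univ_two]
    have h3 := h2 m hm
    by_cases h4 : m 1 = 0
    · rw [if_pos (by omega)]
      simp [h4]
    · rw [if_neg (by omega)]
      simp [h4]

/-- An equation of degree zero vanishes if the variables of degree zero do. -/
private theorem Fano_zero {k A : Type*} [Field k] [CommRing A] [Algebra k A] {N : ℕ}
    (a : Fin N → ℕ) (F : MvPolynomial (Fin N) k) (hF : F.IsWeightedHomogeneous a 0)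
    (h0 : MvPolynomial.coeff 0 F = 0) (f : Fin N → A) (hf : ∀ i, a i = 0 → f i = 0) :
    MvPolynomial.aeval f F = 0 := by
  rw [MvPolynomial.aeval_def, MvPolynomial.eval₂_eq']
  refine Finset.sum_eq_zero fun m hm => ?_
  have hm' := MvPolynomial.mem_support_iff.1 hm
  have h1 := hF hm'
  rw [Finsupp.weight_apply, Finsupp.sum_fintype _ _ (fun _ => by simp)] at h1
  have h2 : ∀ i, m i * a i = 0 := fun i => by
    have h3 := (Finset.sum_eq_zero_iff.1 h1) i (Finset.mem_univ i)
    simpa using h3
  obtain ⟨i, hi⟩ : ∃ i, m i ≠ 0 := by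
    by_contra hcon
    push Not at hcon
    apply hm'
    have h3 : m = 0 := Finsupp.ext hcon
    rw [h3, h0]
  have h3 : a i = 0 := by
    rcases mul_eq_zero.1 (h2 i) with h | h
    · exact absurd h hi
    · exact h
  rw [Finset.prod_eq_zero (Finset.mem_univ i) (by rw [hf i h3, zero_pow hi]), mul_zero]

theorem fano_case {k : Type*} [Field k] [IsAlgClosed k] {N c : ℕ} (a : Fin N → ℕ)
    (d : Fin c → ℕ) (F : Fin c → MvPolynomial (Fin N) k)
    (hF : ∀ j, (F j).IsWeightedHomogeneous a (d j)) (h0 : ∀ j, MvPolynomial.coeff 0 (F j) = 0)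
    (hcount : ∑ j, d j + 1 = ∑ i, a i)
    (horb : ∀ x : Fin N → k, x ≠ 0 → (∀ i, a i = 0 → x i = 0) →
      (∀ j, MvPolynomial.eval x (F j) = 0) → ∀ q : ℕ, (∀ i, x i ≠ 0 → q ∣ a i) → q = 1)
    (hcard : Fintype.card {j : Fin c // 0 < d j} + 3 ≤ Fintype.card {i : Fin N // 0 < a i}) :
    ∃ x : Fin N → k, x ≠ 0 ∧ (∀ i, a i = 0 → x i = 0) ∧ (∀ j, MvPolynomial.eval x (F j) = 0) ∧
      ¬ Rigid a F x := by
  classical
  set n₁ := Fintype.card {i : Fin N // 0 < a i} with hn₁
  set c₁ := Fintype.card {j : Fin c // 0 < d j} with hc₁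
  have e₁ : {i : Fin N // 0 < a i} ≃ Fin n₁ := Fintype.equivFin _
  have e₂ : {j : Fin c // 0 < d j} ≃ Fin c₁ := Fintype.equivFin _
  set a' : Fin n₁ → ℕ := fun l => a (e₁.symm l).1 with ha'
  set d' : Fin c₁ → ℕ := fun l => d (e₂.symm l).1 with hd'
  set σ : Fin N → MvPolynomial (Fin n₁) k := fun i =>
    if h : 0 < a i then MvPolynomial.X (e₁ ⟨i, h⟩) else 0 with hσ
  have hσw : ∀ i, (σ i).IsWeightedHomogeneous a' (a i) := by
    intro i
    rw [hσ]
    beta_reduce
    by_cases h : 0 < a i
    · rw [dif_pos h]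
      have h1 := MvPolynomial.isWeightedHomogeneous_X k a' (e₁ ⟨i, h⟩)
      rw [ha'] at h1
      beta_reduce at h1
      rw [Equiv.symm_apply_apply] at h1
      exact h1
    · rw [dif_neg h]
      exact MvPolynomial.isWeightedHomogeneous_zero k a' (a i)
  have hhom : ∀ j, (MvPolynomial.aeval σ (F j)).IsWeightedHomogeneous a' (d j) := by
    intro j
    rw [MvPolynomial.aeval_def, MvPolynomial.eval₂_eq']
    refine MvPolynomial.IsWeightedHomogeneous.sum _ _ _ fun m hm => ?_
    have h1 : d j = 0 + ∑ i, m i * a i := by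
      have h2 := hF j (MvPolynomial.mem_support_iff.1 hm)
      rw [Finsupp.weight_apply, Finsupp.sum_fintype _ _ (fun _ => by simp)] at h2
      rw [zero_add, ← h2]
      refine Finset.sum_congr rfl fun i _ => ?_
      rw [smul_eq_mul]
    rw [h1]
    refine (MvPolynomial.isWeightedHomogeneous_C a' _).mul ?_
    refine MvPolynomial.IsWeightedHomogeneous.prod _ _ _ fun i _ => ?_
    have h3 := (hσw i).pow (m i)
    rwa [smul_eq_mul] at h3
  -- points with values in an algebra
  have hzero : ∀ {A : Type _} [CommRing A] [Algebra k A] (x' : Fin n₁ → A) (f : Fin N → A),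
      (∀ i (h : 0 < a i), f i = x' (e₁ ⟨i, h⟩)) → (∀ i, a i = 0 → f i = 0) →
      (∀ l, MvPolynomial.aeval x' (MvPolynomial.aeval σ (F (e₂.symm l).1)) = 0) →
      ∀ j, MvPolynomial.aeval f (F j) = 0 := by
    intro A _ _ x' f h1 h2 h3 j
    rcases Nat.eq_zero_or_pos (d j) with h | h
    · have h4 := hF j
      rw [h] at h4
      exact Fano_zero a (F j) h4 (h0 j) f h2
    · have h4 := h3 (e₂ ⟨j, h⟩)
      rw [Equiv.symm_apply_apply] at h4
      rw [MvPolynomial.comp_aeval_apply] at h4
      rw [← h4]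
      congr 2
      funext i
      rw [hσ]
      beta_reduce
      by_cases h : 0 < a i
      · rw [dif_pos h, MvPolynomial.aeval_X, h1 i h]
      · rw [dif_neg h, map_zero, h2 i (by omega)]
  -- the theorem on curves of degree one
  obtain ⟨f', g1, g2, g3⟩ := exists_degree_one a' (fun l => (e₁.symm l).2) d'
    (fun l => (e₂.symm l).2) (fun l => MvPolynomial.aeval σ (F (e₂.symm l).1))
    (fun l => hhom _) hcard
    (by
      have h1 : ∑ l, a' l = ∑ i, a i := Fano_sum a e₁
      have h2 : ∑ l, d' l = ∑ j, d j := Fano_sum d e₂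
      rw [h1, h2]
      exact hcount.le)
    (fun x' hx' h3 rr hrr => by
      set x : Fin N → k := fun i => if h : 0 < a i then x' (e₁ ⟨i, h⟩) else 0 with hx
      have h1 : ∀ i (h : 0 < a i), x i = x' (e₁ ⟨i, h⟩) := fun i h => by
        rw [hx]
        beta_reduce
        rw [dif_pos h]
      have h2 : ∀ i, a i = 0 → x i = 0 := fun i h => by
        rw [hx]
        beta_reduce
        rw [dif_neg (by omega)]
      refine horb x (fun h => hx' (funext fun l => ?_)) h2 (fun j => ?_) rr (fun i hi => ?_)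
      · have h4 := h1 (e₁.symm l).1 (e₁.symm l).2
        rw [Subtype.coe_eta, Equiv.apply_symm_apply] at h4
        rw [← h4, h]
        rfl
      · have h5 := hzero (A := k) x' x h1 h2 (fun l => by
          rw [MvPolynomial.aeval_eq_eval]
          exact h3 l) j
        rw [MvPolynomial.aeval_eq_eval] at h5
        exact h5
      · rcases Nat.eq_zero_or_pos (a i) with h | h
        · rw [h]
          exact dvd_zero _
        · have h4 := hrr (e₁ ⟨i, h⟩) (by
            rw [← h1 i h]
            exact hi)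
          rw [ha'] at h4
          beta_reduce at h4
          rwa [Equiv.symm_apply_apply] at h4)
  set f : Fin N → MvPolynomial (Fin 2) k := fun i =>
    if h : 0 < a i then f' (e₁ ⟨i, h⟩) else 0 with hf
  have hf1 : ∀ i (h : 0 < a i), f i = f' (e₁ ⟨i, h⟩) := fun i h => by
    rw [hf]
    beta_reduce
    rw [dif_pos h]
  have hf2 : ∀ i, a i = 0 → f i = 0 := fun i h => by
    rw [hf]
    beta_reduce
    rw [dif_neg (by omega)]
  have hfF : ∀ j, MvPolynomial.aeval f (F j) = 0 := hzero f' f hf1 hf2 g3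
  have hhf : ∀ i, (f i).IsHomogeneous (a i) := by
    intro i
    rcases Nat.eq_zero_or_pos (a i) with h | h
    · rw [hf2 i h]
      exact MvPolynomial.isHomogeneous_zero _ _ _
    · rw [hf1 i h]
      have h1 := g1 (e₁ ⟨i, h⟩)
      rw [ha'] at h1
      beta_reduce at h1
      rwa [Equiv.symm_apply_apply] at h1
  have hcz : ∀ u : Fin 2 → k, u ≠ 0 → ∃ i, 0 < a i ∧ MvPolynomial.eval u (f i) ≠ 0 := by
    intro u hu
    obtain ⟨l, hl⟩ := g2 u hu
    refine ⟨(e₁.symm l).1, (e₁.symm l).2, ?_⟩
    rw [hf1 _ (e₁.symm l).2]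
    have h5 : e₁ ⟨(e₁.symm l).1, (e₁.symm l).2⟩ = l := by
      rw [Subtype.coe_eta, Equiv.apply_symm_apply]
    rwa [h5]
  obtain ⟨i₀, hi₀, hxi₀⟩ := hcz ![1, 0] (by
    intro h
    have := congrFun h 0
    simp at this)
  refine ⟨fun i => MvPolynomial.eval ![1, 0] (f i), fun h => hxi₀ (congrFun h i₀), fun i hi => ?_,
    fun j => ?_, fun hrig => ?_⟩
  · beta_reduce
    rw [hf2 i hi, map_zero]
  · have h1 := MvPolynomial.comp_aeval_apply (R := k) (f := f)
      (MvPolynomial.aeval ![1, 0] : MvPolynomial (Fin 2) k →ₐ[k] k) (F j)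
    rw [hfF j, map_zero] at h1
    exact h1.symm
  · obtain ⟨φ, hφ⟩ : ∃ φ : Fin N → k[X], ∀ i, φ i = MvPolynomial.aeval ![X, 1] (f i) :=
      ⟨_, fun _ => rfl⟩
    have hφF : ∀ j, MvPolynomial.aeval φ (F j) = 0 := by
      intro j
      have h1 := MvPolynomial.comp_aeval_apply (R := k) (f := f)
        (MvPolynomial.aeval ![X, 1] : MvPolynomial (Fin 2) k →ₐ[k] k[X]) (F j)
      rw [hfF j, map_zero] at h1
      rw [h1]
      congr 2
      funext i
      exact hφ i
    have hφd : ∀ i, (φ i).natDegree ≤ a i := fun i => by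
      rw [hφ]
      exact (Fano_form (f i) (hhf i)).1
    have hφc : ∀ i, (φ i).coeff (a i) = MvPolynomial.eval ![1, 0] (f i) := fun i => by
      rw [hφ]
      exact (Fano_form (f i) (hhf i)).2
    have hdeg : (φ i₀).degree ≠ 0 := by
      intro h
      have h1 : (φ i₀).natDegree = 0 := natDegree_eq_of_degree_eq_some h
      have h2 : (φ i₀).coeff (a i₀) = 0 := coeff_eq_zero_of_natDegree_lt (by omega)
      rw [hφc] at h2
      exact hxi₀ h2
    obtain ⟨t, ht⟩ := IsAlgClosed.exists_root (φ i₀) hdeg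
    have hψ := hrig i₀ hi₀ hxi₀ (fun i => (φ i).comp (X + C t)) (fun i => by
        refine natDegree_comp_le.trans ?_
        refine (Nat.mul_le_mul (hφd i) (natDegree_X_add_C t).le).trans ?_
        rw [mul_one])
      (fun i => by
        beta_reduce
        rw [coeff_comp_top _ _ (hφd i), hφc])
      (fun j => by
        rw [aeval_comp', hφF j, zero_comp])
      (by
        beta_reduce
        rw [coeff_zero_eq_eval_zero, eval_comp]
        simpa using ht)
    obtain ⟨i, hi, hne⟩ := hcz ![t, 1] (by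
      intro h
      have := congrFun h 1
      simp at this)
    apply hne
    have h1 : (φ i).eval t = 0 := by
      have h2 := congrArg (eval 0) (hψ i)
      beta_reduce at h2
      rw [eval_comp] at h2
      simpa [hi.ne'] using h2
    have h3 : (φ i).eval t = MvPolynomial.eval ![t, 1] (f i) := by
      rw [hφ, ← Polynomial.coe_aeval_eq_eval]
      have h4 := MvPolynomial.comp_aeval_apply (R := k) (f := ![(X : k[X]), 1])
        (Polynomial.aeval t : k[X] →ₐ[k] k) (f i)
      rw [h4, ← MvPolynomial.aeval_eq_eval]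
      congr 2
      funext l
      fin_cases l
      · simp
      · simp
    rw [← h3, h1]

end Pool.Agent.H.MP_2786f0_ag.h70
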