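import Pool.Agent.H.MP_2786f0_ag.h70.K.Defs

/-!
# The weights of the equations for solutions with unknown leading coefficients
-/

namespace Pool.Agent.H.MP_2786f0_ag.h70

open Polynomial

/-- The coefficient of `X ^ l` is weighted homogeneous of weight `d - l`. -/
private def Bal {A σ : Type*} [CommRing A] (w : σ → ℕ) (d : ℕ) (P : (MvPolynomial σ A)[X]) :
    Prop :=
  ∀ l, (l ≤ d → (P.coeff l).IsWeightedHomogeneous w (d - l)) ∧ (d < l → P.coeff l = 0)

section bal

variable {A σ : Type*} [CommRing A] {w : σ → ℕ}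

private theorem bal_C {c : MvPolynomial σ A} (hc : c.IsWeightedHomogeneous w 0) :
    Bal w 0 (C c) := by
  intro l
  refine ⟨fun hl => ?_, fun hl => ?_⟩
  · obtain rfl : l = 0 := by omega
    rw [coeff_C_zero]
    exact hc
  · rw [coeff_C, if_neg (by omega)]

private theorem bal_one : Bal w 0 (1 : (MvPolynomial σ A)[X]) := by
  have h := bal_C (w := w) (c := (1 : MvPolynomial σ A)) (MvPolynomial.isWeightedHomogeneous_one A w)
  rwa [C_1] at h

private theorem bal_monomial {c : MvPolynomial σ A} {d m : ℕ} (hm : m ≤ d)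
    (hc : c.IsWeightedHomogeneous w (d - m)) : Bal w d (C c * X ^ m) := by
  intro l
  rw [coeff_C_mul_X_pow]
  refine ⟨fun hl => ?_, fun hl => if_neg (by omega)⟩
  split_ifs with h
  · rw [h]
    exact hc
  · exact MvPolynomial.isWeightedHomogeneous_zero A w _

private theorem bal_add {d : ℕ} {P Q : (MvPolynomial σ A)[X]} (hP : Bal w d P)
    (hQ : Bal w d Q) : Bal w d (P + Q) := by
  intro l
  rw [coeff_add]
  refine ⟨fun hl => ((hP l).1 hl).add ((hQ l).1 hl), fun hl => ?_⟩
  rw [(hP l).2 hl, (hQ l).2 hl, add_zero]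

private theorem bal_sum {ι : Type*} (s : Finset ι) {d : ℕ} {P : ι → (MvPolynomial σ A)[X]}
    (hP : ∀ i ∈ s, Bal w d (P i)) : Bal w d (∑ i ∈ s, P i) := by
  intro l
  rw [finsetSum_coeff]
  refine ⟨fun hl => ?_, fun hl => ?_⟩
  · exact MvPolynomial.IsWeightedHomogeneous.sum _ _ _ fun i hi => (hP i hi l).1 hl
  · exact Finset.sum_eq_zero fun i hi => (hP i hi l).2 hl

private theorem bal_mul {d e : ℕ} {P Q : (MvPolynomial σ A)[X]} (hP : Bal w d P)
    (hQ : Bal w e Q) : Bal w (d + e) (P * Q) := by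
  intro l
  rw [coeff_mul]
  refine ⟨fun hl => ?_, fun hl => ?_⟩
  · refine MvPolynomial.IsWeightedHomogeneous.sum _ _ _ fun x hx => ?_
    rw [Finset.HasAntidiagonal.mem_antidiagonal] at hx
    by_cases h1 : x.1 ≤ d
    · by_cases h2 : x.2 ≤ e
      · have h3 := ((hP x.1).1 h1).mul ((hQ x.2).1 h2)
        have h4 : d - x.1 + (e - x.2) = d + e - l := by omega
        rwa [h4] at h3
      · rw [(hQ x.2).2 (by omega), mul_zero]
        exact MvPolynomial.isWeightedHomogeneous_zero A w _
    · rw [(hP x.1).2 (by omega), zero_mul]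
      exact MvPolynomial.isWeightedHomogeneous_zero A w _
  · refine Finset.sum_eq_zero fun x hx => ?_
    rw [Finset.HasAntidiagonal.mem_antidiagonal] at hx
    by_cases h1 : x.1 ≤ d
    · rw [(hQ x.2).2 (by omega), mul_zero]
    · rw [(hP x.1).2 (by omega), zero_mul]

private theorem bal_pow {d : ℕ} {P : (MvPolynomial σ A)[X]} (hP : Bal w d P) (m : ℕ) :
    Bal w (m * d) (P ^ m) := by
  induction m with
  | zero =>
    rw [zero_mul, pow_zero]
    exact bal_one
  | succ m ih =>
    rw [Nat.succ_mul, pow_succ]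
    exact bal_mul ih hP

private theorem bal_prod {ι : Type*} (s : Finset ι) {d : ι → ℕ} {P : ι → (MvPolynomial σ A)[X]}
    (hP : ∀ i ∈ s, Bal w (d i) (P i)) : Bal w (∑ i ∈ s, d i) (∏ i ∈ s, P i) := by
  classical
  induction s using Finset.induction_on with
  | empty =>
    rw [Finset.sum_empty, Finset.prod_empty]
    exact bal_one
  | insert i s hi ih =>
    rw [Finset.sum_insert hi, Finset.prod_insert hi]
    exact bal_mul (hP i (Finset.mem_insert_self i s))
      (ih fun j hj => hP j (Finset.mem_insert_of_mem hj))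

end bal

private theorem bal_gen3 (k : Type*) [Field k] {N : ℕ} (a : Fin N → ℕ) (i : Fin N) :
    Bal (fun s : Σ i : Fin N, Fin (a i) => a s.1 - (s.2 : ℕ)) (a i) (gen3 k a i) := by
  rw [gen3]
  refine bal_add (bal_monomial le_rfl ?_) (bal_sum _ fun m _ => bal_monomial m.2.le ?_)
  · rw [Nat.sub_self]
    exact MvPolynomial.isWeightedHomogeneous_C _ _
  · exact MvPolynomial.isWeightedHomogeneous_X (MvPolynomial (Fin N) k)
      (fun s : Σ i : Fin N, Fin (a i) => a s.1 - (s.2 : ℕ)) ⟨i, m⟩

theorem gen3_homogeneous {k : Type*} [Field k] {N : ℕ} (a : Fin N → ℕ) (d : ℕ)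
    (F : MvPolynomial (Fin N) k) (hF : F.IsWeightedHomogeneous a d) (l : ℕ) (hl : l ≤ d) :
    ((MvPolynomial.aeval (gen3 k a) F).coeff l).IsWeightedHomogeneous
      (fun s : Σ i : Fin N, Fin (a i) => a s.1 - (s.2 : ℕ)) (d - l) := by
  have h1 : MvPolynomial.aeval (gen3 k a) F =
      ∑ m ∈ F.support, algebraMap k (MvPolynomial (Σ i : Fin N, Fin (a i))
        (MvPolynomial (Fin N) k))[X] (F.coeff m) * ∏ i, gen3 k a i ^ m i := by
    rw [MvPolynomial.aeval_def, MvPolynomial.eval₂_eq']
  have h2 : Bal (fun s : Σ i : Fin N, Fin (a i) => a s.1 - (s.2 : ℕ)) d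
      (MvPolynomial.aeval (gen3 k a) F) := by
    rw [h1]
    refine bal_sum _ fun m hm => ?_
    have h := hF (MvPolynomial.mem_support_iff.1 hm)
    rw [Finsupp.weight_apply, Finsupp.sum_fintype _ _ (fun _ => by simp)] at h
    simp only [smul_eq_mul] at h
    rw [← h, Polynomial.algebraMap_apply, MvPolynomial.algebraMap_apply, ← zero_add (∑ i, _)]
    exact bal_mul (bal_C (MvPolynomial.isWeightedHomogeneous_C _ _))
      (bal_prod _ fun i _ => bal_pow (bal_gen3 k a i) (m i))
  exact (h2 l).1 hl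

theorem gen3_spec {k : Type*} [Field k] {N : ℕ} (a : Fin N → ℕ) (F : MvPolynomial (Fin N) k)
    (x : Fin N → k) (u : (Σ i : Fin N, Fin (a i)) → k) (l : ℕ) :
    MvPolynomial.eval u (MvPolynomial.map (MvPolynomial.eval x)
      ((MvPolynomial.aeval (gen3 k a) F).coeff l)) =
      (MvPolynomial.aeval (spec a x u) F).coeff l := by
  let φ : MvPolynomial (Σ i : Fin N, Fin (a i)) (MvPolynomial (Fin N) k) →ₐ[k] k :=
    { toRingHom := (MvPolynomial.eval u).comp (MvPolynomial.map (MvPolynomial.eval x))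
      commutes' := fun r => by
        simp [MvPolynomial.algebraMap_apply] }
  have hφ : ∀ p, φ p = MvPolynomial.eval u (MvPolynomial.map (MvPolynomial.eval x) p) :=
    fun p => rfl
  have hgen : ∀ i, mapAlgHom φ (gen3 k a i) = spec a x u i := by
    intro i
    rw [gen3, spec, coe_mapAlgHom, Polynomial.map_add, Polynomial.map_mul, Polynomial.map_pow,
      Polynomial.map_sum, map_C, map_X]
    congr 1
    · congr 2
      show φ _ = _
      rw [hφ]
      simp
    · refine Finset.sum_congr rfl fun m _ => ?_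
      rw [Polynomial.map_mul, Polynomial.map_pow, map_C, map_X]
      congr 2
      show φ _ = _
      rw [hφ]
      simp
  have h1 : mapAlgHom φ (MvPolynomial.aeval (gen3 k a) F) = MvPolynomial.aeval (spec a x u) F := by
    rw [← AlgHom.comp_apply, MvPolynomial.comp_aeval]
    congr 2
    funext i
    exact hgen i
  rw [← h1, coe_mapAlgHom, coeff_map, ← hφ]
  rfl

end Pool.Agent.H.MP_2786f0_ag.h70
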