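import Pool.Agent.H.MP_2786f0_ag.h70.K.Hom
import Pool.Agent.H.MP_2786f0_ag.h70.R.WRes

/-!
# The points with a nontrivial solution
-/

namespace Pool.Agent.H.MP_2786f0_ag.h70

open Polynomial

/-- Dropping a variable keeps weighted homogeneous polynomials. -/
theorem drop_homogeneous {R ι : Type*} [CommRing R] (w : ι → ℕ) (d : ℕ) (i₀ : ι)
    (P : MvPolynomial ι R) (hP : P.IsWeightedHomogeneous w d)
    (f : ι → MvPolynomial {i // i ≠ i₀} R) (hf0 : f i₀ = 0)
    (hf : ∀ i : {i // i ≠ i₀}, f i = MvPolynomial.X i) :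
    (MvPolynomial.aeval f P).IsWeightedHomogeneous (fun i : {i // i ≠ i₀} => w i) d := by
  classical
  rw [MvPolynomial.aeval_def, MvPolynomial.eval₂_eq]
  refine MvPolynomial.IsWeightedHomogeneous.sum _ _ _ fun m hm => ?_
  have h1 := hP (MvPolynomial.mem_support_iff.1 hm)
  rw [Finsupp.weight_apply, Finsupp.sum] at h1
  have h2 : d = 0 + ∑ i ∈ m.support, m i * w i := by
    rw [zero_add, ← h1]
    rfl
  rw [h2]
  refine (MvPolynomial.isWeightedHomogeneous_C _ _).mul ?_
  refine MvPolynomial.IsWeightedHomogeneous.prod _ _ _ fun i _ => ?_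
  have h3 : (f i).IsWeightedHomogeneous (fun i : {i // i ≠ i₀} => w i) (w i) := by
    by_cases hi : i = i₀
    · rw [hi, hf0]
      exact MvPolynomial.isWeightedHomogeneous_zero _ _ _
    · have h4 := hf ⟨i, hi⟩
      rw [h4]
      exact MvPolynomial.isWeightedHomogeneous_X _ (fun i : {i // i ≠ i₀} => w i) _
  have h4 := h3.pow (m i)
  rwa [smul_eq_mul] at h4

/-- The value after dropping a variable. -/
theorem eval_drop {k : Type*} [Field k] {τ ι : Type*} (x : τ → k) (i₀ : ι)
    (P : MvPolynomial ι (MvPolynomial τ k))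
    (f : ι → MvPolynomial {i // i ≠ i₀} (MvPolynomial τ k)) (hf0 : f i₀ = 0)
    (hf : ∀ i : {i // i ≠ i₀}, f i = MvPolynomial.X i) (u : ι → k) (hu : u i₀ = 0) :
    MvPolynomial.eval (fun i : {i // i ≠ i₀} => u i)
      (MvPolynomial.map (MvPolynomial.eval x) (MvPolynomial.aeval f P)) =
      MvPolynomial.eval u (MvPolynomial.map (MvPolynomial.eval x) P) := by
  induction P using MvPolynomial.induction_on with
  | C a =>
    rw [MvPolynomial.aeval_C, MvPolynomial.algebraMap_eq, MvPolynomial.map_C, MvPolynomial.map_C,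
      MvPolynomial.eval_C, MvPolynomial.eval_C]
  | add p q hp hq => rw [map_add, map_add, map_add, hp, hq, map_add, map_add]
  | mul_X p i hp =>
    rw [map_mul, map_mul, map_mul, hp, MvPolynomial.aeval_X, map_mul, MvPolynomial.map_X, map_mul,
      MvPolynomial.eval_X]
    congr 1
    by_cases hi : i = i₀
    · rw [hi, hf0, map_zero, map_zero, hu]
    · rw [hf ⟨i, hi⟩, MvPolynomial.map_X, MvPolynomial.eval_X]

/-- The points of `F = 0` at which there is a nontrivial solution are the zeros of one polynomial. -/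
theorem key {k : Type*} [Field k] [IsAlgClosed k] {N c : ℕ} (a : Fin N → ℕ) (d : Fin c → ℕ)
    (F : Fin c → MvPolynomial (Fin N) k) (hF : ∀ j, (F j).IsWeightedHomogeneous a (d j))
    (hcount : ∑ j, d j + 1 = ∑ i, a i) (i₀ : Fin N) (hi₀ : 1 ≤ a i₀) :
    ∃ ρ : MvPolynomial (Fin N) k, ∀ x : Fin N → k, (∀ j, MvPolynomial.eval x (F j) = 0) →
      (MvPolynomial.eval x ρ = 0 ↔ ∃ φ : Fin N → k[X], (∀ i, (φ i).natDegree ≤ a i) ∧
        (∀ i, (φ i).coeff (a i) = x i) ∧ (∀ j, MvPolynomial.aeval φ (F j) = 0) ∧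
        (φ i₀).coeff 0 = 0 ∧ ∃ i, φ i ≠ C (x i) * X ^ a i) := by
  classical
  set s₀ : Σ i : Fin N, Fin (a i) := ⟨i₀, ⟨0, hi₀⟩⟩ with hs₀
  set f : (Σ i : Fin N, Fin (a i)) →
      MvPolynomial {s : Σ i : Fin N, Fin (a i) // s ≠ s₀} (MvPolynomial (Fin N) k) :=
    fun s => if h : s = s₀ then 0 else MvPolynomial.X ⟨s, h⟩ with hf
  have hf0 : f s₀ = 0 := by rw [hf]; simp
  have hf1 : ∀ s : {s : Σ i : Fin N, Fin (a i) // s ≠ s₀}, f s = MvPolynomial.X s := by
    intro s
    rw [hf]
    beta_reduce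
    rw [dif_neg s.2]
  obtain ⟨ρ, hρ⟩ := wres (k := k) (τ := Fin N) (ι := {s : Σ i : Fin N, Fin (a i) // s ≠ s₀})
    (J := Σ j : Fin c, Fin (d j)) (by
      rw [Fintype.card_subtype_compl, Fintype.card_subtype_eq, Fintype.card_sigma,
        Fintype.card_sigma]
      simp only [Fintype.card_fin]
      omega) (fun s => a s.1.1 - (s.1.2 : ℕ)) (fun s => by
        have := s.1.2.2
        omega) (fun l => d l.1 - (l.2 : ℕ)) (fun l => by
        have := l.2.2
        omega) (fun l => MvPolynomial.aeval f ((MvPolynomial.aeval (gen3 k a) (F l.1)).coeff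
          (l.2 : ℕ))) (fun l => drop_homogeneous (fun s : Σ i : Fin N, Fin (a i) =>
            a s.1 - (s.2 : ℕ)) _ s₀ _ (gen3_homogeneous a (d l.1) (F l.1) (hF l.1) (l.2 : ℕ)
              l.2.2.le) f hf0 hf1)
  refine ⟨ρ, fun x hx => ?_⟩
  rw [hρ]
  -- the values of the equations
  have hval : ∀ (u : (Σ i : Fin N, Fin (a i)) → k), u s₀ = 0 → ∀ l : Σ j : Fin c, Fin (d j),
      MvPolynomial.eval (fun s : {s : Σ i : Fin N, Fin (a i) // s ≠ s₀} => u s)
        (MvPolynomial.map (MvPolynomial.eval x) (MvPolynomial.aeval f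
          ((MvPolynomial.aeval (gen3 k a) (F l.1)).coeff (l.2 : ℕ)))) =
      (MvPolynomial.aeval (spec a x u) (F l.1)).coeff (l.2 : ℕ) := by
    intro u hu l
    rw [eval_drop x s₀ _ f hf0 hf1 u hu, gen3_spec]
  constructor
  · rintro ⟨v, hv, hv0⟩
    set u : (Σ i : Fin N, Fin (a i)) → k := fun s => if h : s = s₀ then 0 else v ⟨s, h⟩ with hu
    have hu0 : u s₀ = 0 := by rw [hu]; simp
    have huv : (fun s : {s : Σ i : Fin N, Fin (a i) // s ≠ s₀} => u s) = v := by
      funext s
      rw [hu]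
      beta_reduce
      rw [dif_neg s.2]
    refine ⟨spec a x u, spec_natDegree' a x u, spec_coeff_top' a x u, fun j => ?_, ?_, ?_⟩
    · have h1 := aeval_degree' a (d j) (F j) (hF j) (spec a x u) (spec_natDegree' a x u)
      ext m
      rw [coeff_zero]
      rcases lt_trichotomy m (d j) with h | h | h
      · have h2 := hval u hu0 ⟨j, ⟨m, h⟩⟩
        rw [huv, hv0 ⟨j, ⟨m, h⟩⟩] at h2
        exact h2.symm
      · rw [h, h1.2]
        simp only [spec_coeff_top' a x u]
        exact hx j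
      · exact coeff_eq_zero_of_natDegree_lt (h1.1.trans_lt h)
    · have h2 := spec_coeff a x u i₀ ⟨0, hi₀⟩
      rw [← hs₀, hu0] at h2
      exact h2
    · by_contra hcon
      push Not at hcon
      apply hv
      rw [← huv]
      funext s
      obtain ⟨⟨i, m⟩, hs⟩ := s
      have hm := m.2
      show u ⟨i, m⟩ = 0
      rw [← spec_coeff a x u i m, hcon i, coeff_C_mul_X_pow, if_neg (by omega)]
  · rintro ⟨φ, g1, g2, g3, g4, g5⟩
    set u : (Σ i : Fin N, Fin (a i)) → k := fun s => (φ s.1).coeff s.2 with hu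
    have hu0 : u s₀ = 0 := g4
    have hspec : spec a x u = φ := by
      funext i
      ext m
      rcases lt_trichotomy m (a i) with h | h | h
      · have h2 := spec_coeff a x u i ⟨m, h⟩
        exact h2
      · rw [h, spec_coeff_top', g2]
      · rw [coeff_eq_zero_of_natDegree_lt ((spec_natDegree' a x u i).trans_lt h),
          coeff_eq_zero_of_natDegree_lt ((g1 i).trans_lt h)]
    refine ⟨fun s => u s, ?_, fun l => ?_⟩
    · intro h
      obtain ⟨i, hi⟩ := g5
      apply hi
      ext m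
      rw [coeff_C_mul_X_pow]
      rcases lt_trichotomy m (a i) with h1 | h1 | h1
      · rw [if_neg h1.ne]
        by_cases hs : (⟨i, ⟨m, h1⟩⟩ : Σ i : Fin N, Fin (a i)) = s₀
        · have h2 : u ⟨i, ⟨m, h1⟩⟩ = 0 := by rw [hs, hu0]
          exact h2
        · exact congrFun h ⟨_, hs⟩
      · rw [if_pos h1, h1, g2]
      · rw [if_neg h1.ne', coeff_eq_zero_of_natDegree_lt ((g1 i).trans_lt h1)]
    · rw [hval u hu0 l, hspec, g3, coeff_zero]

end Pool.Agent.H.MP_2786f0_ag.h70
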