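import Pool.Agent.H.MP_2786f0_ag.h70.K.Mov

/-!
# Fano varieties with complete intersection Cox ring
-/

namespace Pool.Agent.H.MP_2786f0_ag.h70

open Polynomial

/-- In a domain a coordinate is no zero divisor. -/
theorem eval_eq_zero_of_mul_X {k : Type*} [Field k] {N c : ℕ} {F : Fin c → MvPolynomial (Fin N) k}
    (h0 : ∀ j, MvPolynomial.coeff 0 (F j) = 0)
    (hmin : ∀ j i, MvPolynomial.coeff (Finsupp.single i 1) (F j) = 0)
    (hdom : IsDomain (MvPolynomial (Fin N) k ⧸ Ideal.span (Set.range F)))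
    (x : Fin N → k) (hx : ∀ j, MvPolynomial.eval x (F j) = 0) (i : Fin N)
    (g : MvPolynomial (Fin N) k) (hg : g * MvPolynomial.X i ∈ Ideal.span (Set.range F)) :
    MvPolynomial.eval x g = 0 := by
  classical
  have hle : Ideal.span (Set.range F) ≤ RingHom.ker (MvPolynomial.eval x) := by
    rw [Ideal.span_le]
    rintro _ ⟨j, rfl⟩
    exact hx j
  have h1 : Ideal.Quotient.mk (Ideal.span (Set.range F)) g *
      Ideal.Quotient.mk (Ideal.span (Set.range F)) (MvPolynomial.X i) = 0 := by
    rw [← map_mul]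
    exact Ideal.Quotient.eq_zero_iff_mem.2 hg
  rcases mul_eq_zero.1 h1 with h | h
  · exact hle (Ideal.Quotient.eq_zero_iff_mem.1 h)
  · exfalso
    -- the coefficient of `X i` of an element of the ideal is zero
    have h2 := Ideal.Quotient.eq_zero_iff_mem.1 h
    have h3 : ∀ P ∈ Ideal.span (Set.range F), MvPolynomial.coeff (Finsupp.single i 1) P = 0 ∧
        MvPolynomial.coeff 0 P = 0 := by
      intro P hP
      induction hP using Submodule.span_induction with
      | mem P hP =>
        obtain ⟨j, rfl⟩ := hP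
        exact ⟨hmin j i, h0 j⟩
      | zero => simp
      | add P Q _ _ h4 h5 =>
        rw [MvPolynomial.coeff_add, MvPolynomial.coeff_add, h4.1, h4.2, h5.1, h5.2, add_zero]
        exact ⟨rfl, rfl⟩
      | smul Q P _ h4 =>
        rw [smul_eq_mul]
        constructor
        · rw [MvPolynomial.coeff_mul]
          refine Finset.sum_eq_zero fun m hm => ?_
          rw [Finset.HasAntidiagonal.mem_antidiagonal] at hm
          by_cases h5 : m.2 = 0
          · rw [h5, h4.2, mul_zero]
          · have h6 : m.2 = Finsupp.single i 1 := by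
              ext i'
              have h7 := DFunLike.congr_fun hm i'
              rw [Finsupp.add_apply, Finsupp.single_apply] at h7
              rw [Finsupp.single_apply]
              by_cases hi : i = i'
              · rw [if_pos hi] at h7 ⊢
                obtain ⟨i₁, hi₁⟩ : ∃ i₁, m.2 i₁ ≠ 0 := by
                  by_contra hcon
                  push Not at hcon
                  exact h5 (Finsupp.ext hcon)
                have h8 := DFunLike.congr_fun hm i₁
                rw [Finsupp.add_apply, Finsupp.single_apply] at h8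
                have h9 : i = i₁ := by
                  by_contra h10
                  rw [if_neg h10] at h8
                  omega
                rw [← hi, h9]
                rw [if_pos h9] at h8
                omega
              · rw [if_neg hi] at h7 ⊢
                omega
            rw [h6, h4.1, mul_zero]
        · rw [MvPolynomial.coeff_mul]
          refine Finset.sum_eq_zero fun m hm => ?_
          rw [Finset.HasAntidiagonal.mem_antidiagonal] at hm
          have h5 : m.2 = 0 := by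
            ext i'
            have h7 := DFunLike.congr_fun hm i'
            rw [Finsupp.add_apply] at h7
            simp only [Finsupp.coe_zero, Pi.zero_apply] at h7 ⊢
            omega
          rw [h5, h4.2, mul_zero]
    have h4 := (h3 _ h2).1
    rw [MvPolynomial.coeff_X, if_pos rfl] at h4
    exact one_ne_zero h4

/-- Equations with a common zero have no constant term. -/
theorem coeff_zero_eq_zero {k : Type*} [Field k] {N r : ℕ} {w : Fin N → Fin r → ℤ}
    {δ : Fin r → ℤ} {G : MvPolynomial (Fin N) k} (hG : G.IsWeightedHomogeneous w δ)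
    (hproj : ∃ l : Fin r → ℤ, ∀ i, 0 < l ⬝ᵥ w i) (p : Fin N → k) (hp : MvPolynomial.eval p G = 0) :
    MvPolynomial.coeff 0 G = 0 := by
  classical
  by_contra hne
  obtain ⟨l, hl⟩ := hproj
  have h3 : δ = 0 := by
    have := weight_sum hG hne
    simpa using this.symm
  have h4 : ∀ m ∈ G.support, m = 0 := by
    intro m hm
    have h5 := weight_sum hG (MvPolynomial.mem_support_iff.1 hm)
    have h6 : l ⬝ᵥ (∑ i, m i • w i) = 0 := by rw [h5, h3, dotProduct_zero]
    rw [dot_sum] at h6
    have h7 := (Finset.sum_eq_zero_iff_of_nonneg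
      (fun i _ => mul_nonneg (by positivity) (hl i).le)).1 h6
    ext i
    rcases mul_eq_zero.1 (h7 i (Finset.mem_univ _)) with h | h
    · exact_mod_cast h
    · exact absurd h (hl i).ne'
  have h5 : G = MvPolynomial.C (MvPolynomial.coeff 0 G) := by
    ext m
    rw [MvPolynomial.coeff_C]
    split_ifs with h
    · rw [h]
    · by_contra h6
      exact h (h4 m (MvPolynomial.mem_support_iff.2 h6)).symm
  rw [h5, MvPolynomial.eval_C] at hp
  exact hne hp

/-- Every class which is nonnegative on the weights of the nonzero coordinates of a point is a sum of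
classes of rational curves. -/
theorem main' {k : Type*} [Field k] [IsAlgClosed k] (h2 : (2 : k) ≠ 0) {N c r : ℕ}
    {w : Fin N → Fin r → ℤ} {κ : Fin r → ℤ} {δ : Fin c → Fin r → ℤ}
    {F : Fin c → MvPolynomial (Fin N) k} (hF : ∀ j, (F j).IsWeightedHomogeneous w (δ j))
    (hproj : ∃ l : Fin r → ℤ, ∀ i, 0 < l ⬝ᵥ w i)
    (hκ : κ = ∑ i, w i - ∑ j, δ j)
    (hfree : ∀ x : Fin N → k, IsPoint w κ F x → AddSubgroup.closure (w '' {i | x i ≠ 0}) = ⊤)
    (hsm : ∀ x : Fin N → k, IsPoint w κ F x →
      LinearIndependent k fun (j : Fin c) (i : Fin N) =>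
        MvPolynomial.eval x (MvPolynomial.pderiv i (F j)))
    (hmin : ∀ j i, MvPolynomial.coeff (Finsupp.single i 1) (F j) = 0)
    (hdom : IsDomain (MvPolynomial (Fin N) k ⧸ Ideal.span (Set.range F)))
    (hufd : UniqueFactorizationMonoid (MvPolynomial (Fin N) k ⧸ Ideal.span (Set.range F)))
    (hcod : ∀ g h : MvPolynomial (Fin N) k,
      (∀ x : Fin N → k, IsPoint w κ F x → MvPolynomial.eval x g = 0 → MvPolynomial.eval x h = 0) →
      ∀ x : Fin N → k, (∀ j, MvPolynomial.eval x (F j) = 0) → MvPolynomial.eval x g = 0 →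
        MvPolynomial.eval x h = 0) (n : ℕ) :
    ∀ (β : Fin r → ℤ) (p : Fin N → k), IsPoint w κ F p → (∀ i, p i ≠ 0 → 0 ≤ β ⬝ᵥ w i) →
      β ⬝ᵥ κ ≤ n → β ∈ AddSubmonoid.closure {β | IsCurveClass w κ F β} := by
  classical
  have := IsAlgClosed.instInfinite (K := k)
  induction n with
  | zero =>
    intro β p hp hβ hn
    by_cases hβ0 : β = 0
    · rw [hβ0]
      exact zero_mem _
    · have := strict hF hfree hp β hβ0 hβ
      push_cast at hn
      omega
  | succ n ih =>
    intro β p hp hβ hn
    by_cases hβ0 : β = 0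
    · rw [hβ0]
      exact zero_mem _
    have hpos := strict hF hfree hp β hβ0 hβ
    have h0 : ∀ j, MvPolynomial.coeff 0 (F j) = 0 := fun j =>
      coeff_zero_eq_zero (hF j) hproj p (hp.1 j)
    rcases count hF β hβ (hsm p hp) (fun i g hg => eval_eq_zero_of_mul_X h0 hmin hdom p hp.1 i g hg)
      (by rw [← hκ]; omega) with ⟨h1, h3⟩ | h1
    · rw [← hκ] at h3
      apply AddSubmonoid.subset_closure
      exact movable h2 hF hproj hκ hp hfree hsm hmin hdom hufd hcod β h1 h3
    · obtain ⟨i₀, hp₀, hi₀⟩ := exists_index hfree hp β hβ0 hβ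
      obtain ⟨φ, g1, g2, g3, g4, g5⟩ := exists_sol_full hF hp.1 β hβ i₀ hi₀ h1
      rcases split hF hproj hfree hp β hβ φ g1 g2 g3 i₀ hi₀ hp₀ g4 g5 with
        h | ⟨γ, hγ0, hγβ, ⟨y, hy, hyγ⟩, hβγ⟩
      · exact AddSubmonoid.subset_closure h
      · have h3 := strict hF hfree hy γ hγ0 hyγ
        have h4 := strict hF hfree hp (β - γ) (sub_ne_zero.2 hγβ.symm) hβγ
        have h5 : (β - γ) ⬝ᵥ κ = β ⬝ᵥ κ - γ ⬝ᵥ κ := sub_dotProduct _ _ _
        push_cast at hn
        have h6 := ih γ y hy hyγ (by omega)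
        have h7 := ih (β - γ) p hp hβγ (by omega)
        have h8 := add_mem h6 h7
        rwa [add_sub_cancel] at h8

/-- **The theorem.** -/
theorem curve_classes_generate' {k : Type*} [Field k] [IsAlgClosed k] (h2 : (2 : k) ≠ 0)
    {N c r : ℕ} {w : Fin N → Fin r → ℤ} {κ : Fin r → ℤ} {δ : Fin c → Fin r → ℤ}
    {F : Fin c → MvPolynomial (Fin N) k} (hF : ∀ j, (F j).IsWeightedHomogeneous w (δ j))
    (hproj : ∃ l : Fin r → ℤ, ∀ i, 0 < l ⬝ᵥ w i)
    (hκ : κ = ∑ i, w i - ∑ j, δ j) (hne : ∃ x : Fin N → k, IsPoint w κ F x)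
    (hfree : ∀ x : Fin N → k, IsPoint w κ F x → AddSubgroup.closure (w '' {i | x i ≠ 0}) = ⊤)
    (hsm : ∀ x : Fin N → k, IsPoint w κ F x →
      LinearIndependent k fun (j : Fin c) (i : Fin N) =>
        MvPolynomial.eval x (MvPolynomial.pderiv i (F j)))
    (hmin : ∀ j i, MvPolynomial.coeff (Finsupp.single i 1) (F j) = 0)
    (hdom : IsDomain (MvPolynomial (Fin N) k ⧸ Ideal.span (Set.range F)))
    (hufd : UniqueFactorizationMonoid (MvPolynomial (Fin N) k ⧸ Ideal.span (Set.range F)))
    (hcod : ∀ g h : MvPolynomial (Fin N) k,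
      (∀ x : Fin N → k, IsPoint w κ F x → MvPolynomial.eval x g = 0 → MvPolynomial.eval x h = 0) →
      ∀ x : Fin N → k, (∀ j, MvPolynomial.eval x (F j) = 0) → MvPolynomial.eval x g = 0 →
        MvPolynomial.eval x h = 0) :
    (∀ (β : Fin r → ℤ) (p : Fin N → k), IsPoint w κ F p → (∀ i, p i ≠ 0 → 0 ≤ β ⬝ᵥ w i) →
      β ∈ AddSubmonoid.closure {β | IsCurveClass w κ F β}) ∧
    AddSubgroup.closure {β | IsCurveClass w κ F β} = ⊤ := by
  have h1 : ∀ (β : Fin r → ℤ) (p : Fin N → k), IsPoint w κ F p → (∀ i, p i ≠ 0 → 0 ≤ β ⬝ᵥ w i) →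
      β ∈ AddSubmonoid.closure {β | IsCurveClass w κ F β} := fun β p hp hβ =>
    main' h2 hF hproj hκ hfree hsm hmin hdom hufd hcod (β ⬝ᵥ κ).toNat β p hp hβ (by omega)
  refine ⟨h1, ?_⟩
  rw [eq_top_iff]
  intro β _
  obtain ⟨p, hp⟩ := hne
  obtain ⟨l, hl⟩ := hproj
  have hle : AddSubmonoid.closure {β | IsCurveClass w κ F β} ≤
      (AddSubgroup.closure {β | IsCurveClass w κ F β}).toAddSubmonoid :=
    AddSubmonoid.closure_le.2 AddSubgroup.subset_closure
  set M : ℤ := ∑ i, |β ⬝ᵥ w i| with hM
  have hM0 : 0 ≤ M := Finset.sum_nonneg fun i _ => abs_nonneg _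
  have h2 := hle (h1 (M • l + β) p hp (fun i _ => by
    rw [add_dotProduct, smul_dotProduct, smul_eq_mul]
    have h5 : |β ⬝ᵥ w i| ≤ M :=
      Finset.single_le_sum (f := fun i => |β ⬝ᵥ w i|) (fun _ _ => abs_nonneg _)
        (Finset.mem_univ i)
    have h6 : -(β ⬝ᵥ w i) ≤ |β ⬝ᵥ w i| := neg_le_abs _
    have h7 := hl i
    nlinarith))
  have h3 := hle (h1 (M • l) p hp (fun i _ => by
    rw [smul_dotProduct, smul_eq_mul]
    exact mul_nonneg hM0 (hl i).le))
  have h4 := AddSubgroup.sub_mem _ (show M • l + β ∈ AddSubgroup.closure _ from h2)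
    (show M • l ∈ AddSubgroup.closure _ from h3)
  rwa [add_sub_cancel_left] at h4

end Pool.Agent.H.MP_2786f0_ag.h70
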