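import Pool.Agent.H.MP_2786f0_ag.Zero

/-!
# The numbers of the variables and of the equations
-/

namespace Pool.Agent.H.MP_2786f0_ag.h70

open MvPolynomial

/-- The number of the members of a family which are positive and divisible by `q`. -/
def numDiv {ι : Type*} [Fintype ι] (f : ι → ℕ) (q : ℕ) : ℕ :=
  (Finset.univ.filter fun i => 0 < f i ∧ q ∣ f i).card

theorem num_totient {ι : Type*} [Fintype ι] (f : ι → ℕ) (M : ℕ) (hM : ∀ i, f i ≤ M) :
    ∑ q ∈ Finset.Icc 1 M, Nat.totient q * numDiv f q = ∑ i, f i := by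
  classical
  have h1 : ∀ q, Nat.totient q * numDiv f q =
      ∑ i, if 0 < f i ∧ q ∣ f i then Nat.totient q else 0 := by
    intro q
    rw [← Finset.sum_filter, Finset.sum_const, smul_eq_mul, mul_comm, numDiv]
  simp only [h1]
  rw [Finset.sum_comm]
  refine Finset.sum_congr rfl fun i _ => ?_
  rcases Nat.eq_zero_or_pos (f i) with h0 | h0
  · rw [h0]
    simp
  · rw [← Finset.sum_filter]
    have h2 : (Finset.Icc 1 M).filter (fun q => 0 < f i ∧ q ∣ f i) = (f i).divisors := by
      ext q
      rw [Finset.mem_filter, Finset.mem_Icc, Nat.mem_divisors]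
      constructor
      · rintro ⟨-, -, h3⟩
        exact ⟨h3, h0.ne'⟩
      · rintro ⟨h3, -⟩
        exact ⟨⟨Nat.pos_of_dvd_of_pos h3 h0, (Nat.le_of_dvd h0 h3).trans (hM i)⟩, h0, h3⟩
    rw [h2]
    exact Nat.sum_totient (f i)

section

variable {k : Type*} [Field k] {N : ℕ}

/-- A polynomial vanishes at a point if each of its monomials contains a variable which is zero. -/
theorem num_eval_zero (F : MvPolynomial (Fin N) k) (x : Fin N → k)
    (h : ∀ m : Fin N →₀ ℕ, coeff m F ≠ 0 → ∃ i, m i ≠ 0 ∧ x i = 0) : eval x F = 0 := by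
  rw [eval_eq']
  refine Finset.sum_eq_zero fun m hm => ?_
  obtain ⟨i, hi, hxi⟩ := h m (mem_support_iff.1 hm)
  rw [Finset.prod_eq_zero (Finset.mem_univ i) (by rw [hxi, zero_pow hi]), mul_zero]

theorem num_weight {a : Fin N → ℕ} {d : ℕ} {F : MvPolynomial (Fin N) k}
    (hF : F.IsWeightedHomogeneous a d) {m : Fin N →₀ ℕ} (hm : coeff m F ≠ 0) :
    ∑ i, m i * a i = d := by
  have h0 := hF hm
  rw [Finsupp.weight_apply, Finsupp.sum_fintype _ _ (fun _ => by simp)] at h0
  simpa only [smul_eq_mul] using h0

/-- If more weights than degrees are positive and divisible by `q`, there is a common zero which is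
supported on the variables whose weights are positive and divisible by `q`. -/
theorem num_exists [IsAlgClosed k] {c : ℕ} (a : Fin N → ℕ) (d : Fin c → ℕ)
    (F : Fin c → MvPolynomial (Fin N) k) (hF : ∀ j, (F j).IsWeightedHomogeneous a (d j))
    (h0 : ∀ j, coeff 0 (F j) = 0) (q : ℕ) (hq : numDiv d q < numDiv a q) :
    ∃ x : Fin N → k, x ≠ 0 ∧ (∀ i, x i ≠ 0 → 0 < a i ∧ q ∣ a i) ∧ ∀ j, eval x (F j) = 0 := by
  classical
  set ev : ({i : Fin N // 0 < a i ∧ q ∣ a i} → k) → Fin N → k := fun y i =>
    if h : 0 < a i ∧ q ∣ a i then y ⟨i, h⟩ else 0 with hev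
  set sub : Fin N → MvPolynomial {i : Fin N // 0 < a i ∧ q ∣ a i} k := fun i =>
    if h : 0 < a i ∧ q ∣ a i then X ⟨i, h⟩ else 0 with hsub
  have hcomp : ∀ (y : {i : Fin N // 0 < a i ∧ q ∣ a i} → k) (P : MvPolynomial (Fin N) k),
      eval y (aeval sub P) = eval (ev y) P := by
    intro y P
    have h1 : (aeval y : MvPolynomial {i : Fin N // 0 < a i ∧ q ∣ a i} k →ₐ[k] k).comp
        (aeval sub) = aeval (ev y) := by
      apply MvPolynomial.algHom_ext
      intro i
      rw [AlgHom.comp_apply, aeval_X, aeval_X, hsub, hev]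
      by_cases h : 0 < a i ∧ q ∣ a i
      · simp only [dif_pos h, aeval_X]
      · simp only [dif_neg h, map_zero]
    have h2 := DFunLike.congr_fun h1 P
    rw [AlgHom.comp_apply] at h2
    rw [← MvPolynomial.coe_aeval_eq_eval, ← MvPolynomial.coe_aeval_eq_eval]
    exact h2
  have hsup : ∀ y i, ev y i ≠ 0 → 0 < a i ∧ q ∣ a i := by
    intro y i hi
    by_contra h
    apply hi
    rw [hev]
    simp only [dif_neg h]
  obtain ⟨y, hy, hyF⟩ := exists_zero (k := k)
    (ι := {i : Fin N // 0 < a i ∧ q ∣ a i}) (κ := {j : Fin c // 0 < d j ∧ q ∣ d j})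
    (by
      rw [Fintype.card_subtype, Fintype.card_subtype]
      exact hq)
    (fun l => aeval sub (F l.1)) (by
      intro l
      rw [hcomp]
      have h1 : ev (fun _ => 0) = 0 := by
        funext i
        rw [hev]
        by_cases h : 0 < a i ∧ q ∣ a i
        · simp only [dif_pos h, Pi.zero_apply]
        · simp only [dif_neg h, Pi.zero_apply]
      rw [h1]
      refine num_eval_zero _ _ fun m hm => ?_
      by_contra hcon
      push Not at hcon
      have h2 : m = 0 := by
        ext i
        by_contra h3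
        exact hcon i h3 rfl
      rw [h2] at hm
      exact hm (h0 l.1))
  refine ⟨ev y, ?_, hsup y, fun j => ?_⟩
  · intro h
    apply hy
    funext i
    have h1 := congrFun h i.1
    rw [hev] at h1
    simp only [dif_pos i.2, Pi.zero_apply] at h1
    exact h1
  · by_cases hj : 0 < d j ∧ q ∣ d j
    · have h1 := hyF ⟨j, hj⟩
      rw [hcomp] at h1
      exact h1
    · refine num_eval_zero _ _ fun m hm => ?_
      by_contra hcon
      push Not at hcon
      apply hj
      have hw := num_weight (hF j) hm
      have h1 : ∀ i, m i ≠ 0 → 0 < a i ∧ q ∣ a i := fun i hi => hsup y i (hcon i hi)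
      have h2 : q ∣ d j := by
        rw [← hw]
        refine Finset.dvd_sum fun i _ => ?_
        by_cases h3 : m i = 0
        · rw [h3, zero_mul]
          exact dvd_zero q
        · exact (h1 i h3).2.mul_left _
      refine ⟨?_, h2⟩
      rcases Nat.eq_zero_or_pos (d j) with h3 | h3
      · exfalso
        have h4 : m = 0 := by
          ext i
          by_contra h5
          have h6 := (h1 i h5).1
          rw [h3] at hw
          have h7 := (Finset.sum_eq_zero_iff.1 hw) i (Finset.mem_univ i)
          rcases Nat.mul_eq_zero.1 h7 with h8 | h8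
          · exact h5 h8
          · omega
        rw [h4] at hm
        exact hm (h0 j)
      · exact h3

/-- The coordinate vector of a variable of maximal weight. -/
theorem num_single {c : ℕ} (a : Fin N → ℕ) (d : Fin c → ℕ)
    (F : Fin c → MvPolynomial (Fin N) k) (hF : ∀ j, (F j).IsWeightedHomogeneous a (d j))
    (h0 : ∀ j, coeff 0 (F j) = 0) (h1 : ∀ j i, coeff (Finsupp.single i 1) (F j) = 0)
    (i : Fin N) (hi : 0 < a i) (hd : ∀ j, d j ≤ a i) (j : Fin c) :
    eval (Pi.single i (1 : k)) (F j) = 0 := by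
  classical
  refine num_eval_zero _ _ fun m hm => ?_
  by_contra hcon
  push Not at hcon
  have h2 : ∀ l, l ≠ i → m l = 0 := by
    intro l hl
    by_contra h3
    exact hcon l h3 (Pi.single_eq_of_ne hl _)
  have hw := num_weight (hF j) hm
  rw [Finset.sum_eq_single i (fun l _ hl => by rw [h2 l hl, zero_mul])
    (fun h => absurd (Finset.mem_univ i) h)] at hw
  have h3 : m i ≤ 1 := by
    by_contra h4
    have h5 : 2 * a i ≤ m i * a i := Nat.mul_le_mul_right _ (by omega)
    have h6 := hd j
    omega
  have h4 : m = Finsupp.single i (m i) := by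
    ext l
    by_cases h5 : l = i
    · rw [h5, Finsupp.single_eq_same]
    · rw [Finsupp.single_eq_of_ne h5, h2 l h5]
  rcases Nat.le_one_iff_eq_zero_or_eq_one.1 h3 with h5 | h5
  · rw [h5, Finsupp.single_zero] at h4
    rw [h4] at hm
    exact hm (h0 j)
  · rw [h5] at h4
    rw [h4] at hm
    exact hm (h1 j i)

/-- If all weights are at most one, the gradient of an equation of degree one without linear terms
vanishes in the directions of the variables of weight one. -/
theorem num_grad (a : Fin N → ℕ) (F : MvPolynomial (Fin N) k) (hF : F.IsWeightedHomogeneous a 1)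
    (h1 : ∀ i, coeff (Finsupp.single i 1) F = 0) (x : Fin N → k) (hx : ∀ i, a i = 0 → x i = 0)
    (i : Fin N) (hi : 0 < a i) : eval x (pderiv i F) = 0 := by
  classical
  conv_lhs => rw [F.as_sum]
  rw [map_sum, map_sum]
  refine Finset.sum_eq_zero fun m hm => ?_
  have hm' : coeff m F ≠ 0 := mem_support_iff.1 hm
  rw [pderiv_monomial, eval_monomial]
  by_cases hmi : m i = 0
  · rw [hmi, Nat.cast_zero, mul_zero, zero_mul]
  · have hw := num_weight hF hm'
    have h2 : ∀ l, l ≠ i → m l * a l = 0 := by
      intro l hl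
      by_contra h3
      have h4 : m i * a i + m l * a l ≤ ∑ l, m l * a l := by
        rw [← Finset.sum_pair (f := fun l => m l * a l) hl.symm]
        exact Finset.sum_le_sum_of_subset (Finset.subset_univ _)
      have h5 : 0 < m i * a i := Nat.mul_pos (Nat.pos_of_ne_zero hmi) hi
      omega
    have h3 : m i * a i ≤ 1 := by
      rw [← hw]
      exact Finset.single_le_sum (f := fun l => m l * a l) (fun _ _ => Nat.zero_le _)
        (Finset.mem_univ i)
    have h4 : m i = 1 := by
      have h5 : m i * 1 ≤ m i * a i := Nat.mul_le_mul_left _ hi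
      omega
    -- another variable occurs
    have h5 : ∃ l, l ≠ i ∧ m l ≠ 0 := by
      by_contra hcon
      push Not at hcon
      have h6 : m = Finsupp.single i 1 := by
        ext l
        by_cases h7 : l = i
        · rw [h7, Finsupp.single_eq_same, h4]
        · rw [Finsupp.single_eq_of_ne h7, hcon l h7]
      rw [h6] at hm'
      exact hm' (h1 i)
    obtain ⟨l, hl, hml⟩ := h5
    have h6 : a l = 0 := (Nat.mul_eq_zero.1 (h2 l hl)).resolve_left hml
    have h7 : ((m - Finsupp.single i 1 : Fin N →₀ ℕ).prod fun n e => x n ^ e) = 0 := by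
      rw [Finsupp.prod]
      have h8 : (m - Finsupp.single i 1 : Fin N →₀ ℕ) l = m l := by
        rw [Finsupp.tsub_apply, Finsupp.single_eq_of_ne hl, Nat.sub_zero]
      refine Finset.prod_eq_zero (i := l) ?_ ?_
      · rw [Finsupp.mem_support_iff, h8]
        exact hml
      · rw [hx l h6, h8, zero_pow hml]
    rw [h7, mul_zero]

end

theorem classify {k : Type*} [Field k] [IsAlgClosed k] {N c : ℕ} (a : Fin N → ℕ) (d : Fin c → ℕ)
    (F : Fin c → MvPolynomial (Fin N) k) (hF : ∀ j, (F j).IsWeightedHomogeneous a (d j))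
    (h0 : ∀ j, coeff 0 (F j) = 0) (h1 : ∀ j i, coeff (Finsupp.single i 1) (F j) = 0)
    (hcount : ∑ j, d j + 1 = ∑ i, a i)
    (horb : ∀ x : Fin N → k, x ≠ 0 → (∀ i, a i = 0 → x i = 0) → (∀ j, eval x (F j) = 0) →
      ∀ q : ℕ, (∀ i, x i ≠ 0 → q ∣ a i) → q = 1)
    (hind : ∀ x : Fin N → k, x ≠ 0 → (∀ i, a i = 0 → x i = 0) → (∀ j, eval x (F j) = 0) →
      LinearIndependent k fun (j : {j : Fin c // 0 < d j}) (i : {i : Fin N // 0 < a i}) =>
        eval x (pderiv i.1 (F j.1))) :
    Fintype.card {j : Fin c // 0 < d j} + 3 ≤ Fintype.card {i : Fin N // 0 < a i} ∨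
    (∃ i₀, (∀ i, 0 < a i → i = i₀) ∧ a i₀ = 1 ∧ ∀ j, d j = 0) ∨
    ∃ (e : Fin 3 → Fin N) (j₀ : Fin c), Function.Injective e ∧
      (∀ i, 0 < a i → i ∈ Set.range e) ∧ (∀ t, a (e t) = 1) ∧ d j₀ = 2 ∧
      ∀ j, j ≠ j₀ → d j = 0 := by
  classical
  have hcc : Fintype.card {j : Fin c // 0 < d j} = numDiv d 1 := by
    rw [Fintype.card_subtype, numDiv]
    simp
  have hcn : Fintype.card {i : Fin N // 0 < a i} = numDiv a 1 := by
    rw [Fintype.card_subtype, numDiv]
    simp
  -- (A)
  have hA : ∀ q, 2 ≤ q → numDiv a q ≤ numDiv d q := by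
    intro q hq
    by_contra hcon
    obtain ⟨x, hx, hsup, hxF⟩ := num_exists a d F hF h0 q (not_le.1 hcon)
    have h2 := horb x hx (fun i hi => by
      by_contra h3
      have := (hsup i h3).1
      omega) hxF q fun i hi => (hsup i hi).2
    omega
  -- (D)
  have hD : ∀ i, 2 ≤ a i → (∀ j, d j ≤ a i) → False := by
    intro i hi hd
    have hz := num_single a d F hF h0 h1 i (by omega) hd
    have hne : (Pi.single i (1 : k) : Fin N → k) ≠ 0 := by
      intro h
      have := congrFun h i
      rw [Pi.single_eq_same] at this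
      exact one_ne_zero this
    have hsup : ∀ l, (Pi.single i (1 : k) : Fin N → k) l ≠ 0 → l = i := by
      intro l hl
      by_contra h
      exact hl (Pi.single_eq_of_ne h _)
    have h2 := horb _ hne (fun l hl => by
      by_contra h3
      rw [hsup l h3] at hl
      omega) hz (a i) fun l hl => by rw [hsup l hl]
    omega
  obtain ⟨M, hMa, hMd, hMx⟩ : ∃ M : ℕ, (∀ i, a i ≤ M) ∧ (∀ j, d j ≤ M) ∧
      ((∃ i, a i = M) ∨ ∃ j, d j = M) := by
    have hN : (Finset.univ : Finset (Fin N)).Nonempty := by
      rw [Finset.nonempty_iff_ne_empty]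
      intro h
      rw [h, Finset.sum_empty] at hcount
      omega
    obtain ⟨i, -, hi⟩ := Finset.exists_max_image Finset.univ a hN
    rcases (Finset.univ : Finset (Fin c)).eq_empty_or_nonempty with hC | hC
    · refine ⟨a i, fun l => hi l (Finset.mem_univ l), fun j => ?_, Or.inl ⟨i, rfl⟩⟩
      have := Finset.mem_univ j
      rw [hC] at this
      exact absurd this (Finset.notMem_empty j)
    · obtain ⟨j, -, hj⟩ := Finset.exists_max_image Finset.univ d hC
      rcases le_total (a i) (d j) with h | h
      · exact ⟨d j, fun l => (hi l (Finset.mem_univ l)).trans h,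
          fun l => hj l (Finset.mem_univ l), Or.inr ⟨j, rfl⟩⟩
      · exact ⟨a i, fun l => hi l (Finset.mem_univ l),
          fun l => (hj l (Finset.mem_univ l)).trans h, Or.inl ⟨i, rfl⟩⟩
  rcases Nat.lt_or_ge 2 M with hM | hM
  · -- large degrees
    left
    rw [hcc, hcn]
    have hna : ∀ i, a i ≠ M := by
      intro i hi
      exact hD i (by omega) fun j => by rw [hi]; exact hMd j
    obtain ⟨j, hj⟩ : ∃ j, d j = M := hMx.resolve_left fun ⟨i, hi⟩ => hna i hi
    have hn0 : numDiv a M = 0 := by
      rw [numDiv, Finset.card_eq_zero, Finset.filter_eq_empty_iff]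
      rintro i - ⟨h2, h3⟩
      have h4 := Nat.le_of_dvd h2 h3
      exact hna i (le_antisymm (hMa i) h4)
    have hc0 : 1 ≤ numDiv d M := by
      rw [numDiv, Nat.one_le_iff_ne_zero, Finset.card_ne_zero]
      exact ⟨j, Finset.mem_filter.2 ⟨Finset.mem_univ j, by omega, by rw [hj]⟩⟩
    have hφ : 2 ≤ Nat.totient M := by
      have h2 : 0 < Nat.totient M := Nat.totient_pos.2 (by omega)
      have h3 : Nat.totient M ≠ 1 := by
        intro h
        rcases Nat.totient_eq_one_iff.1 h with h4 | h4 <;> omega
      omega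
    have ha := num_totient a M hMa
    have hd := num_totient d M hMd
    have hsplit : ∀ g : ℕ → ℕ, ∑ q ∈ Finset.Icc 1 M, g q =
        g 1 + (∑ q ∈ Finset.Ioo 1 M, g q + g M) := by
      intro g
      have h2 : Finset.Icc 1 M = insert 1 (insert M (Finset.Ioo 1 M)) := by
        ext q
        simp only [Finset.mem_insert, Finset.mem_Icc, Finset.mem_Ioo]
        omega
      rw [h2, Finset.sum_insert, Finset.sum_insert, add_comm (g M)]
      · simp
      · simp only [Finset.mem_insert, Finset.mem_Ioo]
        omega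
    rw [hsplit] at ha hd
    rw [Nat.totient_one, one_mul, hn0, mul_zero, add_zero] at ha
    rw [Nat.totient_one, one_mul] at hd
    have hmid : ∑ q ∈ Finset.Ioo 1 M, Nat.totient q * numDiv a q ≤
        ∑ q ∈ Finset.Ioo 1 M, Nat.totient q * numDiv d q := by
      refine Finset.sum_le_sum fun q hq => Nat.mul_le_mul_left _ (hA q ?_)
      have := (Finset.mem_Ioo.1 hq).1
      omega
    have hlast : 2 * 1 ≤ Nat.totient M * numDiv d M := Nat.mul_le_mul hφ hc0
    omega
  · -- all weights are at most one
    have ha1 : ∀ i, a i ≤ 1 := by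
      intro i
      by_contra h
      have h2 := hMa i
      exact hD i (by omega) fun j => by
        have := hMd j
        omega
    have hsum : ∑ i, a i = numDiv a 1 := by
      rw [numDiv, Finset.card_filter]
      refine Finset.sum_congr rfl fun i _ => ?_
      have := ha1 i
      by_cases h2 : 0 < a i
      · rw [if_pos ⟨h2, one_dvd _⟩]
        omega
      · rw [if_neg fun h3 => h2 h3.1]
        omega
    have hdle : numDiv d 1 ≤ ∑ j, d j := by
      rw [numDiv, Finset.card_filter]
      refine Finset.sum_le_sum fun j _ => ?_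
      by_cases h2 : 0 < d j
      · rw [if_pos ⟨h2, one_dvd _⟩]
        omega
      · rw [if_neg fun h3 => h2 h3.1]
        omega
    have hlt : numDiv d 1 < numDiv a 1 := by omega
    obtain ⟨x, hx, hsup, hxF⟩ := num_exists a d F hF h0 1 hlt
    have hx0 : ∀ i, a i = 0 → x i = 0 := by
      intro i hi
      by_contra h3
      have := (hsup i h3).1
      omega
    have hd1 : ∀ j, d j ≠ 1 := by
      intro j hj
      have h2 := (hind x hx hx0 hxF).ne_zero (⟨j, by omega⟩ : {j : Fin c // 0 < d j})
      apply h2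
      funext i
      have h3 := hF j
      rw [hj] at h3
      exact num_grad a (F j) h3 (h1 j) x hx0 i.1 i.2
    have hd2 : ∀ j, d j = 0 ∨ d j = 2 := by
      intro j
      have h2 := hd1 j
      have h3 := hMd j
      omega
    have hsumd : ∑ j, d j = 2 * numDiv d 1 := by
      rw [numDiv, Finset.card_filter, Finset.mul_sum]
      refine Finset.sum_congr rfl fun j _ => ?_
      rcases hd2 j with h2 | h2
      · rw [if_neg fun h3 => by omega, h2, mul_zero]
      · rw [if_pos ⟨by omega, one_dvd _⟩, h2, mul_one]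
    rcases Nat.lt_or_ge 1 (numDiv d 1) with h2 | h2
    · left
      rw [hcc, hcn]
      omega
    · right
      rcases Nat.eq_zero_or_pos (numDiv d 1) with h3 | h3
      · left
        have h4 : Fintype.card {i : Fin N // 0 < a i} = 1 := by
          rw [hcn]
          omega
        obtain ⟨⟨i₀, hi₀⟩, hu⟩ := Fintype.card_eq_one_iff.1 h4
        refine ⟨i₀, fun i hi => congrArg Subtype.val (hu ⟨i, hi⟩), ?_, fun j => ?_⟩
        · have := ha1 i₀
          omega
        · have h5 : ∑ j, d j = 0 := by omega
          exact (Finset.sum_eq_zero_iff.1 h5) j (Finset.mem_univ j)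
      · right
        have h4 : Fintype.card {i : Fin N // 0 < a i} = 3 := by
          rw [hcn]
          omega
        have h5 : Fintype.card {j : Fin c // 0 < d j} = 1 := by
          rw [hcc]
          omega
        obtain ⟨⟨j₀, hj₀⟩, hu⟩ := Fintype.card_eq_one_iff.1 h5
        have e := (Fintype.equivFinOfCardEq h4).symm
        refine ⟨fun t => (e t).1, j₀, fun s t hst => ?_, fun i hi => ?_, fun t => ?_, ?_,
          fun j hj => ?_⟩
        · exact e.injective (Subtype.ext hst)
        · exact ⟨e.symm ⟨i, hi⟩, by simp⟩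
        · have h6 : a (e t).1 ≤ 1 := ha1 (e t).1
          have h7 : 0 < a (e t).1 := (e t).2
          show a (e t).1 = 1
          omega
        · rcases hd2 j₀ with h6 | h6
          · omega
          · exact h6
        · by_contra h6
          exact hj (congrArg Subtype.val (hu ⟨j, by omega⟩))

end Pool.Agent.H.MP_2786f0_ag.h70
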