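import Pool.Agent.H.MP_2786f0_ag.h70.K.Defs

/-!
# Rigid points have no common divisor
-/

namespace Pool.Agent.H.MP_2786f0_ag.h70

open Polynomial

/-- The substitution of `g ^ (a i / q)`. -/
theorem aeval_divide {k : Type*} [Field k] {N : ℕ} (a : Fin N → ℕ) (d : ℕ)
    (F : MvPolynomial (Fin N) k) (hF : F.IsWeightedHomogeneous a d)
    (x : Fin N → k) (hx : MvPolynomial.eval x F = 0) (q : ℕ) (hq0 : 0 < q)
    (hq : ∀ i, x i ≠ 0 → q ∣ a i) (g : k[X]) :
    MvPolynomial.aeval (fun i => C (x i) * g ^ (a i / q)) F = 0 := by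
  classical
  have h1 : MvPolynomial.aeval (fun i => C (x i) * g ^ (a i / q)) F =
      C (MvPolynomial.eval x F) * g ^ (d / q) := by
    rw [MvPolynomial.aeval_def, MvPolynomial.eval₂_eq', MvPolynomial.eval_eq', map_sum,
      Finset.sum_mul]
    refine Finset.sum_congr rfl fun m hm => ?_
    rw [Polynomial.algebraMap_apply, Algebra.algebraMap_self, RingHom.id_apply, C_mul, mul_assoc]
    congr 1
    by_cases hall : ∀ i, m i ≠ 0 → x i ≠ 0
    · have h2 : ∑ i, (a i / q) * m i = d / q := by
        have h0 := hF (MvPolynomial.mem_support_iff.1 hm)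
        rw [Finsupp.weight_apply, Finsupp.sum_fintype _ _ (fun _ => by simp)] at h0
        rw [← h0]
        symm
        apply Nat.div_eq_of_eq_mul_left hq0
        rw [Finset.sum_mul]
        refine Finset.sum_congr rfl fun i _ => ?_
        by_cases hi : m i = 0
        · simp [hi]
        · have h3 := Nat.div_mul_cancel (hq i (hall i hi))
          rw [smul_eq_mul]
          calc m i * a i = m i * (a i / q * q) := by rw [h3]
            _ = a i / q * m i * q := by ring
      rw [← h2, ← Finset.prod_pow_eq_pow_sum, map_prod, ← Finset.prod_mul_distrib]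
      refine Finset.prod_congr rfl fun i _ => ?_
      rw [mul_pow, ← pow_mul, C_pow]
    · push Not at hall
      obtain ⟨i, hi, hxi⟩ := hall
      rw [Finset.prod_eq_zero (Finset.mem_univ i), Finset.prod_eq_zero (Finset.mem_univ i), C_0,
        zero_mul]
      · rw [hxi, zero_pow hi]
      · rw [hxi, C_0, zero_mul, zero_pow hi]
  rw [h1, hx, C_0, zero_mul]

theorem orb {k : Type*} [Field k] {N c : ℕ} (a : Fin N → ℕ) (d : Fin c → ℕ)
    (F : Fin c → MvPolynomial (Fin N) k) (hF : ∀ j, (F j).IsWeightedHomogeneous a (d j))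
    (x : Fin N → k) (hx : ∀ j, MvPolynomial.eval x (F j) = 0) (hrig : Rigid a F x) (i₀ : Fin N)
    (hi₀ : 1 ≤ a i₀) (hx₀ : x i₀ ≠ 0) (q : ℕ) (hq : ∀ i, x i ≠ 0 → q ∣ a i) : q = 1 := by
  have hq0 : 0 < q := by
    rcases Nat.eq_zero_or_pos q with h | h
    · have h1 := hq i₀ hx₀
      rw [h, Nat.zero_dvd] at h1
      omega
    · exact h
  by_contra hq1
  set g : k[X] := X ^ (q - 1) * (X - 1) with hg
  have hXm : (X - 1 : k[X]).Monic := by
    have := monic_X_sub_C (1 : k)
    rwa [C_1] at this
  have hgm : g.Monic := (monic_X_pow _).mul hXm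
  have hgd : g.natDegree = q := by
    rw [hg, (monic_X_pow _).natDegree_mul hXm, natDegree_X_pow]
    have h1 : (X - 1 : k[X]).natDegree = 1 := by
      have := natDegree_X_sub_C (1 : k)
      rwa [C_1] at this
    rw [h1]
    omega
  have hpow : ∀ i, x i ≠ 0 → (g ^ (a i / q)).natDegree = a i := by
    intro i hi
    rw [hgm.natDegree_pow, hgd, Nat.div_mul_cancel (hq i hi)]
  have hq2 : 0 < a i₀ / q := Nat.div_pos (Nat.le_of_dvd hi₀ (hq i₀ hx₀)) hq0
  have h1 := hrig i₀ hi₀ hx₀ (fun i => C (x i) * g ^ (a i / q)) (fun i => by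
      by_cases hi : x i = 0
      · simp [hi]
      · exact (natDegree_C_mul_le _ _).trans (hpow i hi).le) (fun i => by
      by_cases hi : x i = 0
      · simp [hi]
      · have h2 : (g ^ (a i / q)).coeff (a i) = 1 := by
          have h3 := (hgm.pow (a i / q)).coeff_natDegree
          rwa [hpow i hi] at h3
        rw [coeff_C_mul, h2, mul_one])
    (fun j => aeval_divide a (d j) (F j) (hF j) x (hx j) q hq0 hq g) (by
      rw [coeff_C_mul, coeff_zero_eq_eval_zero, eval_pow, hg, eval_mul, eval_pow, eval_X,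
        zero_pow (by omega), zero_mul, zero_pow hq2.ne', mul_zero]) i₀
  have h2 := congrArg (eval 1) h1
  beta_reduce at h2
  rw [eval_mul, eval_C, eval_pow, hg, eval_mul, eval_pow, eval_X, eval_sub, eval_X, eval_one,
    sub_self, mul_zero, zero_pow hq2.ne', mul_zero, eval_mul, eval_C, eval_pow, eval_X, one_pow,
    mul_one] at h2
  exact hx₀ h2.symm

end Pool.Agent.H.MP_2786f0_ag.h70
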