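import Pool.Agent.H.MP_2786f0_ag.h70.Main
import Pool.Agent.H.MP_2786f0_ag.h70.K.Key
import Pool.Agent.H.MP_2786f0_ag.h70.K.Orb
import Pool.Agent.H.MP_2786f0_ag.h70.K.Num
import Pool.Agent.H.MP_2786f0_ag.h70.K.Fano
import Pool.Agent.H.MP_2786f0_ag.h70.K.Conic

/-!
# Movable classes of degree one
-/

namespace Pool.Agent.H.MP_2786f0_ag.h70

open Polynomial

/-- The value of a polynomial of weighted degree zero at points whose coordinates of weight zero
vanish. -/
theorem eval_of_degree_zero {k : Type*} [Field k] {N : ℕ} (a : Fin N → ℕ) (F : MvPolynomial (Fin N) k)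
    (hF : F.IsWeightedHomogeneous a 0) (h0 : MvPolynomial.coeff 0 F = 0) (x : Fin N → k)
    (hx : ∀ i, a i = 0 → x i = 0) : MvPolynomial.eval x F = 0 := by
  classical
  rw [MvPolynomial.eval_eq']
  refine Finset.sum_eq_zero fun m hm => ?_
  by_cases hm0 : m = 0
  · rw [hm0, h0, zero_mul]
  obtain ⟨i, hi⟩ : ∃ i, m i ≠ 0 := by
    by_contra hcon
    push Not at hcon
    exact hm0 (Finsupp.ext hcon)
  have h1 := hF (MvPolynomial.mem_support_iff.1 hm)
  rw [Finsupp.weight_apply, Finsupp.sum_fintype _ _ (fun _ => by simp)] at h1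
  have h2 := (Finset.sum_eq_zero_iff.1 h1) i (Finset.mem_univ _)
  have h3 : a i = 0 := by
    rw [smul_eq_mul] at h2
    rcases Nat.mul_eq_zero.1 h2 with h | h
    · exact absurd h hi
    · exact h
  rw [Finset.prod_eq_zero (Finset.mem_univ i), mul_zero]
  rw [hx i h3, zero_pow hi]

/-- Euler's formula at a point. -/
theorem euler_eval {k : Type*} [Field k] {N : ℕ} (a : Fin N → ℕ) (d : ℕ) (F : MvPolynomial (Fin N) k)
    (hF : F.IsWeightedHomogeneous a d) (x : Fin N → k) :
    ∑ i, (a i : k) * x i * MvPolynomial.eval x (MvPolynomial.pderiv i F) =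
      (d : k) * MvPolynomial.eval x F := by
  have h := congrArg (MvPolynomial.eval x) (hF.sum_weight_X_mul_pderiv)
  simp only [map_sum, map_mul, MvPolynomial.eval_X, nsmul_eq_mul, map_natCast] at h
  rw [← h]
  refine Finset.sum_congr rfl fun i _ => ?_
  ring

/-- Movable classes of degree one are classes of curves. -/
theorem movable {k : Type*} [Field k] [IsAlgClosed k] (h2 : (2 : k) ≠ 0) {N c r : ℕ}
    {w : Fin N → Fin r → ℤ} {κ : Fin r → ℤ} {δ : Fin c → Fin r → ℤ}
    {F : Fin c → MvPolynomial (Fin N) k} (hF : ∀ j, (F j).IsWeightedHomogeneous w (δ j))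
    (hproj : ∃ l : Fin r → ℤ, ∀ i, 0 < l ⬝ᵥ w i)
    (hκ : κ = ∑ i, w i - ∑ j, δ j) {p : Fin N → k} (hp : IsPoint w κ F p)
    (hfree : ∀ x : Fin N → k, IsPoint w κ F x → AddSubgroup.closure (w '' {i | x i ≠ 0}) = ⊤)
    (hsm : ∀ x : Fin N → k, IsPoint w κ F x →
      LinearIndependent k fun (j : Fin c) (i : Fin N) =>
        MvPolynomial.eval x (MvPolynomial.pderiv i (F j)))
    (hmin : ∀ j i, MvPolynomial.coeff (Finsupp.single i 1) (F j) = 0)
    (hdom : IsDomain (MvPolynomial (Fin N) k ⧸ Ideal.span (Set.range F)))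
    (hufd : UniqueFactorizationMonoid (MvPolynomial (Fin N) k ⧸ Ideal.span (Set.range F)))
    (hcod : ∀ g h : MvPolynomial (Fin N) k,
      (∀ x : Fin N → k, IsPoint w κ F x → MvPolynomial.eval x g = 0 → MvPolynomial.eval x h = 0) →
      ∀ x : Fin N → k, (∀ j, MvPolynomial.eval x (F j) = 0) → MvPolynomial.eval x g = 0 →
        MvPolynomial.eval x h = 0)
    (β : Fin r → ℤ) (hβ : ∀ i, 0 ≤ β ⬝ᵥ w i) (hβκ : β ⬝ᵥ κ = 1) : IsCurveClass w κ F β := by
  classical
  have := IsAlgClosed.instInfinite (K := k)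
  by_contra hnot
  have hβ0 : β ≠ 0 := by
    rintro rfl
    rw [zero_dotProduct] at hβκ
    omega
  set a : Fin N → ℕ := fun i => (β ⬝ᵥ w i).toNat with ha
  set d : Fin c → ℕ := fun j => (β ⬝ᵥ δ j).toNat with hd
  have hai : ∀ i, (a i : ℤ) = β ⬝ᵥ w i := fun i => Int.toNat_of_nonneg (hβ i)
  have hdel := degree_nonneg_of_smooth hF β hβ (hsm p hp)
  have hdj : ∀ j, (d j : ℤ) = β ⬝ᵥ δ j := fun j => Int.toNat_of_nonneg (hdel j)
  have hF' : ∀ j, (F j).IsWeightedHomogeneous a (d j) := by
    intro j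
    have := red_homogeneous (hF j) β
    rwa [red_self _ hβ] at this
  have hcount : ∑ j, d j + 1 = ∑ i, a i := by
    have h3 : ((∑ j, d j + 1 : ℕ) : ℤ) = ((∑ i, a i : ℕ) : ℤ) := by
      rw [hκ, dotProduct_sub, dotProduct_sum, dotProduct_sum] at hβκ
      rw [Nat.cast_add, Nat.cast_sum, Nat.cast_sum, Finset.sum_congr rfl fun j _ => hdj j,
        Finset.sum_congr rfl fun i _ => hai i]
      push_cast
      omega
    exact_mod_cast h3
  -- the constant terms
  have h0 : ∀ j, MvPolynomial.coeff 0 (F j) = 0 := by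
    intro j
    by_contra hne
    obtain ⟨l, hl⟩ := hproj
    have h3 : δ j = 0 := by
      have := weight_sum (hF j) hne
      simpa using this.symm
    have h4 : ∀ m ∈ (F j).support, m = 0 := by
      intro m hm
      have h5 := weight_sum (hF j) (MvPolynomial.mem_support_iff.1 hm)
      have h6 : l ⬝ᵥ (∑ i, m i • w i) = 0 := by rw [h5, h3, dotProduct_zero]
      rw [dot_sum] at h6
      have h7 := (Finset.sum_eq_zero_iff_of_nonneg
        (fun i _ => mul_nonneg (by positivity) (hl i).le)).1 h6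
      ext i
      rcases mul_eq_zero.1 (h7 i (Finset.mem_univ _)) with h | h
      · exact_mod_cast h
      · exact absurd h (hl i).ne'
    have h5 : F j = MvPolynomial.C (MvPolynomial.coeff 0 (F j)) := by
      ext m
      rw [MvPolynomial.coeff_C]
      split_ifs with h
      · rw [h]
      · by_contra h6
        exact h (h4 m (MvPolynomial.mem_support_iff.2 h6)).symm
    have h6 := hp.1 j
    rw [h5, MvPolynomial.eval_C] at h6
    exact hne h6
  -- nontrivial solutions at semistable points do not exist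
  have hss : ∀ x, IsPoint w κ F x → ∀ i₀, 1 ≤ a i₀ → x i₀ ≠ 0 → ¬ ∃ φ : Fin N → k[X],
      (∀ i, (φ i).natDegree ≤ a i) ∧ (∀ i, (φ i).coeff (a i) = x i) ∧
      (∀ j, MvPolynomial.aeval φ (F j) = 0) ∧ (φ i₀).coeff 0 = 0 ∧
      ∃ i, φ i ≠ C (x i) * X ^ a i := by
    rintro x hx i₀ hi₀ hx₀ ⟨φ, g1, g2, g3, g4, g5⟩
    rcases split hF hproj hfree hx β (fun i _ => hβ i) φ g1 g2 g3 i₀
      (by have := hai i₀; omega) hx₀ g4 g5 with h | ⟨γ, hγ0, hγβ, ⟨y, hy, hyγ⟩, hβγ⟩
    · exact hnot h
    · have h3 := strict hF hfree hy γ hγ0 hyγ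
      have h4 := strict hF hfree hx (β - γ) (sub_ne_zero.2 hγβ.symm) hβγ
      rw [sub_dotProduct] at h4
      omega
  -- all points are rigid
  have hrig : ∀ x : Fin N → k, (∀ j, MvPolynomial.eval x (F j) = 0) → Rigid a F x := by
    intro x hx i₀ hi₀ hx₀ φ g1 g2 g3 g4 i
    by_contra hi
    obtain ⟨ρ, hρ⟩ := key a d F hF' hcount i₀ hi₀
    have h3 : MvPolynomial.eval x ρ = 0 := (hρ x hx).2 ⟨φ, g1, g2, g3, g4, i, hi⟩
    have h4 := hcod ρ (MvPolynomial.X i₀) (fun y hy hy0 => by
      rw [MvPolynomial.eval_X]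
      by_contra hy1
      exact hss y hy i₀ hi₀ hy1 ((hρ y hy.1).1 hy0)) x hx h3
    rw [MvPolynomial.eval_X] at h4
    exact hx₀ h4
  have hex : ∀ x : Fin N → k, x ≠ 0 → (∀ i, a i = 0 → x i = 0) → ∃ i₀, 1 ≤ a i₀ ∧ x i₀ ≠ 0 := by
    intro x hx hx0
    obtain ⟨i, hi⟩ : ∃ i, x i ≠ 0 := by
      by_contra hcon
      push Not at hcon
      exact hx (funext hcon)
    refine ⟨i, ?_, hi⟩
    by_contra h
    exact hi (hx0 i (by omega))
  have horb : ∀ x : Fin N → k, x ≠ 0 → (∀ i, a i = 0 → x i = 0) →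
      (∀ j, MvPolynomial.eval x (F j) = 0) → ∀ q : ℕ, (∀ i, x i ≠ 0 → q ∣ a i) → q = 1 := by
    intro x hx hx0 hxF q hq
    obtain ⟨i₀, hi₀, hx₀⟩ := hex x hx hx0
    exact orb a d F hF' x hxF (hrig x hxF) i₀ hi₀ hx₀ q hq
  have hind : ∀ x : Fin N → k, x ≠ 0 → (∀ i, a i = 0 → x i = 0) →
      (∀ j, MvPolynomial.eval x (F j) = 0) →
      LinearIndependent k fun (j : {j : Fin c // 0 < d j}) (i : {i : Fin N // 0 < a i}) =>
        MvPolynomial.eval x (MvPolynomial.pderiv i.1 (F j.1)) := by
    intro x hx hx0 hxF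
    by_contra hdep
    obtain ⟨i₀, hi₀, hx₀⟩ := hex x hx hx0
    obtain ⟨φ, g1, g2, g3, g4, g5⟩ := exists_sol_dep hF hxF β hβ i₀ (by have := hai i₀; omega)
      hcount.le (by
        intro hli
        apply hdep
        have e1 : ∀ j, 0 < d j ↔ 0 < β ⬝ᵥ δ j := fun j => by have := hdj j; omega
        have e2 : ∀ i, 0 < a i ↔ 0 < β ⬝ᵥ w i := fun i => by have := hai i; omega
        rw [Fintype.linearIndependent_iff] at hli ⊢
        intro g hg j
        have h5 := hli (fun j => g ⟨j.1, (e1 j.1).2 j.2⟩) (by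
          funext i
          have h6 := congrFun hg ⟨i.1, (e2 i.1).2 i.2⟩
          simp only [Finset.sum_apply, Pi.smul_apply, smul_eq_mul, Pi.zero_apply] at h6 ⊢
          rw [← h6]
          exact Fintype.sum_equiv (Equiv.subtypeEquivRight fun j => (e1 j).symm) _ _
            (fun j => rfl)) ⟨j.1, (e1 j.1).1 j.2⟩
        exact h5)
    obtain ⟨i, hi⟩ := g5
    exact hi (hrig x hxF i₀ hi₀ hx₀ φ g1 g2 g3 g4 i)
  have hzero : ∀ j, MvPolynomial.eval (fun _ => (0 : k)) (F j) = 0 := by
    intro j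
    rw [MvPolynomial.eval_zero', MvPolynomial.constantCoeff_eq]
    exact h0 j
  rcases classify a d F hF' h0 hmin hcount horb hind with h | ⟨i₀, h3, h4, h5⟩ |
    ⟨e, j₀, he, h3, h4, h5, h6⟩
  · obtain ⟨x, _, _, hx, hnr⟩ := fano_case a d F hF' h0 hcount horb h
    exact hnr (hrig x hx)
  · -- the coordinate `i₀` has no zero on the semistable points
    have h7 := hcod (MvPolynomial.X i₀) 1 (fun y hy hy0 => by
      exfalso
      rw [MvPolynomial.eval_X] at hy0
      apply hβ0
      refine dot_zero_of_closure (hfree y hy) β fun i hi => ?_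
      have h8 : a i = 0 := by
        by_contra h9
        have h10 := h3 i (Nat.pos_of_ne_zero h9)
        rw [h10] at hi
        exact hi hy0
      have := hai i
      omega) (fun _ => 0) hzero (by rw [MvPolynomial.eval_X])
    rw [map_one] at h7
    exact one_ne_zero h7
  · refine no_conic h2 hF hproj hdom hufd h0 β e he (fun t => ?_) (fun i hi => ?_) j₀ ?_
      (fun j hj => ?_) ?_ ?_
    · have := hai (e t)
      rw [h4 t] at this
      exact_mod_cast this.symm
    · have h7 : a i = 0 := by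
        by_contra h8
        exact hi (h3 i (Nat.pos_of_ne_zero h8))
      have := hai i
      omega
    · have := hdj j₀
      rw [h5] at this
      exact_mod_cast this.symm
    · have := hdj j
      rw [h6 j hj] at this
      exact_mod_cast this.symm
    · -- nondegenerate
      intro z hz hgr
      by_contra hz0
      have hz' : ∀ i, a i = 0 → z i = 0 := by
        intro i hi
        apply hz
        rintro ⟨t, rfl⟩
        rw [h4 t] at hi
        omega
      have hzF : ∀ j, MvPolynomial.eval z (F j) = 0 := by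
        intro j
        by_cases hj : j = j₀
        · subst hj
          have h7 := euler_eval a (d j) (F j) (hF' j) z
          rw [h5, Finset.sum_eq_zero] at h7
          · rcases mul_eq_zero.1 h7.symm with h8 | h8
            · exact absurd (by exact_mod_cast h8) h2
            · exact h8
          · intro i _
            by_cases hi : i ∈ Set.range e
            · obtain ⟨t, rfl⟩ := hi
              rw [hgr t, mul_zero]
            · rw [hz i hi, mul_zero, zero_mul]
        · have h7 := hF' j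
          rw [h6 j hj] at h7
          exact eval_of_degree_zero a (F j) h7 (h0 j) z hz'
      have h7 := (hind z hz0 hz' hzF).ne_zero ⟨j₀, by rw [h5]; omega⟩
      apply h7
      funext i
      obtain ⟨t, ht⟩ := h3 i.1 i.2
      have h8 := hgr t
      rw [ht] at h8
      exact h8
    · intro P hP x hx hx0
      have h7 := hcod P 1 (fun y hy hy0 => by
        exfalso
        refine hP y hy.1 ?_ hy0
        by_contra hcon
        push Not at hcon
        apply hβ0
        refine dot_zero_of_closure (hfree y hy) β fun i hi => ?_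
        have h8 : a i = 0 := by
          by_contra h9
          obtain ⟨t, rfl⟩ := h3 i (Nat.pos_of_ne_zero h9)
          exact hi (hcon t)
        have := hai i
        omega) x hx hx0
      rw [map_one] at h7
      exact one_ne_zero h7

end Pool.Agent.H.MP_2786f0_ag.h70
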